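import Pool.Agent.Lib.MP_977f72_an.h30.Defs

/-!
# MP_977f72_an : construction of a boundary with a free point
-/

set_option autoImplicit false
set_option linter.unusedSectionVars false
set_option linter.style.haveILetI false

open MeasureTheory Topology Filter

namespace Pool.Agent.MP977

/-- The combinatorial data from which a boundary is constructed. -/
structure BdData (G : Type) [Group G] [TopologicalSpace G] where
  Gs : ℕ → Subgroup G
  exh : ∀ g, ∃ m, ∀ k, m ≤ k → g ∈ Gs k
  Ls : ℕ → Subgroup G
  Lo : ∀ n, IsOpen (Ls n : Set G)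
  a : ℕ → G → Bool
  a_L : ∀ n, ∀ l ∈ Ls n, ∀ g, a n (l * g) = a n g
  a_one : ∀ n, a n 1 = true
  P1 : ∀ m h, a m h = true → ∀ n, n ≤ m → ∀ g ∈ Gs m, a n (g * h) = a n g
  P2 : ∀ m, ∃ s : ℕ → G, ∀ h i j, a m (s i * h) = false → a m (s j * h) = false → i = j
  P3 : ∀ h, (∀ n, a n h = true) → h = 1

namespace BdData

variable {G : Type} [Group G] [TopologicalSpace G] [IsTopologicalGroup G] (D : BdData G)

/-- the orbit map. -/
def orb (h : G) : ℕ → G → Bool := fun n g => D.a n (g * h)

/-- the boundary. -/
def X : Type := closure (Set.range D.orb)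

instance : TopologicalSpace D.X := inferInstanceAs (TopologicalSpace (closure (Set.range D.orb)))
instance : T2Space D.X := inferInstanceAs (T2Space (closure (Set.range D.orb)))
instance : CompactSpace D.X := isCompact_iff_compactSpace.1 isClosed_closure.isCompact

/-- translation of functions. -/
def tr (g' : G) (z : ℕ → G → Bool) : ℕ → G → Bool := fun n g => z n (g * g')

omit [TopologicalSpace G] [IsTopologicalGroup G] in
theorem continuous_tr (g' : G) : Continuous (tr g' : (ℕ → G → Bool) → _) := by
  unfold tr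
  fun_prop

theorem tr_orb (g' h : G) : tr g' (D.orb h) = D.orb (g' * h) := by
  ext n g
  simp [tr, orb, mul_assoc]

theorem tr_mem (g' : G) {z : ℕ → G → Bool} (hz : z ∈ closure (Set.range D.orb)) :
    tr g' z ∈ closure (Set.range D.orb) := by
  refine map_mem_closure (continuous_tr g') hz ?_
  rintro _ ⟨h, rfl⟩
  exact ⟨g' * h, (D.tr_orb g' h).symm⟩

instance : MulAction G D.X where
  smul g z := ⟨tr g z.1, D.tr_mem g z.2⟩
  one_smul z := Subtype.ext (by
    change tr 1 z.1 = z.1
    ext n g; simp [tr])
  mul_smul g g' z := Subtype.ext (by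
    change tr (g * g') z.1 = tr g (tr g' z.1)
    ext n h; simp [tr, mul_assoc])

theorem smul_val (g : G) (z : D.X) (n : ℕ) (h : G) : (g • z).1 n h = z.1 n (h * g) := rfl

/-- a closed condition that holds on the orbit holds on `X`. -/
theorem of_orb {C : Set (ℕ → G → Bool)} (hC : IsClosed C) (h : ∀ g, D.orb g ∈ C) (z : D.X) :
    z.1 ∈ C :=
  closure_minimal (by rintro _ ⟨g, rfl⟩; exact h g) hC z.2

theorem isInducing_val : IsInducing (fun z : D.X => z.1) := IsInducing.subtypeVal

theorem continuous_ev (n : ℕ) (g : G) : Continuous (fun z : D.X => z.1 n g) := by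
  have h1 : Continuous (fun z : ℕ → G → Bool => z n g) := by fun_prop
  exact h1.comp D.isInducing_val.continuous

theorem inv_L (z : D.X) {n : ℕ} {l : G} (hl : l ∈ D.Ls n) (g : G) : z.1 n (l * g) = z.1 n g :=
  D.of_orb (C := {z | z n (l * g) = z n g}) (isClosed_eq (by fun_prop) (by fun_prop))
    (fun h => by
      change D.a n (l * g * h) = D.a n (g * h)
      rw [mul_assoc]
      exact D.a_L n l hl _) z

/-- clopen implications. -/
theorem p1 (z : D.X) {m n : ℕ} (hn : n ≤ m) {g : G} (hg : g ∈ D.Gs m) (hz : z.1 m 1 = true) :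
    z.1 n g = D.a n g := by
  have hC : IsClosed {z : ℕ → G → Bool | z m 1 = false ∨ z n g = D.a n g} :=
    (isClosed_eq (by fun_prop) (by fun_prop)).union (isClosed_eq (by fun_prop) (by fun_prop))
  have := D.of_orb hC (fun h => by
    by_cases hh : D.a m h = true
    · exact Or.inr (D.P1 m h hh n hn g hg)
    · exact Or.inl (by simpa [orb] using hh)) z
  rcases this with h | h
  · rw [hz] at h; exact absurd h (by decide)
  · exact h

theorem p2 {m : ℕ} {s : ℕ → G}
    (hs : ∀ h i j, D.a m (s i * h) = false → D.a m (s j * h) = false → i = j) (z : D.X)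
    {i j : ℕ} (hi : z.1 m (s i) = false) (hj : z.1 m (s j) = false) : i = j := by
  by_contra hij
  have hC : IsClosed {z : ℕ → G → Bool | z m (s i) = true ∨ z m (s j) = true} :=
    (isClosed_eq (by fun_prop) (by fun_prop)).union (isClosed_eq (by fun_prop) (by fun_prop))
  have := D.of_orb hC (fun h => by
    by_contra hcon
    simp only [Set.mem_ofPred_eq, not_or, Bool.not_eq_true, orb] at hcon
    exact hij (hs h i j hcon.1 hcon.2)) z
  rcases this with h | h
  · rw [hi] at h; exact absurd h (by decide)
  · rw [hj] at h; exact absurd h (by decide)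

instance : ContinuousSMul G D.X := ⟨by
  refine Continuous.subtype_mk ?_ _
  refine continuous_pi fun n => continuous_pi fun g => ?_
  rw [continuous_iff_continuousAt]
  rintro ⟨g0, z0⟩
  have h1 : ContinuousAt (fun p : G × D.X => p.2.1 n (g * g0)) (g0, z0) := by
    have : Continuous (fun p : G × D.X => p.2.1 n (g * g0)) :=
      (D.continuous_ev n (g * g0)).comp continuous_snd
    exact this.continuousAt
  refine h1.congr ?_
  have hopen : IsOpen {p : G × D.X | g * p.1 * g0⁻¹ * g⁻¹ ∈ D.Ls n} :=
    (D.Lo n).preimage (by fun_prop)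
  filter_upwards [hopen.mem_nhds (by simp [one_mem])] with p hp
  have h2 := D.inv_L p.2 hp (g * g0)
  have h3 : g * p.1 * g0⁻¹ * g⁻¹ * (g * g0) = g * p.1 := by group
  rw [h3] at h2
  exact h2.symm⟩

/-- the base point. -/
def pt : D.X := ⟨D.orb 1, subset_closure ⟨1, rfl⟩⟩

theorem stabilizer_pt : MulAction.stabilizer G D.pt = ⊥ := by
  rw [eq_bot_iff]
  intro h hh
  rw [MulAction.mem_stabilizer_iff] at hh
  rw [Subgroup.mem_bot]
  refine D.P3 h fun n => ?_
  have h1 := congrArg (fun z : D.X => z.1 n 1) hh
  simp only [smul_val] at h1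
  have h2 : D.pt.1 n (1 * h) = D.a n (1 * h * 1) := rfl
  have h3 : D.pt.1 n 1 = D.a n (1 * 1) := rfl
  rw [h2, h3, mul_one, mul_one, one_mul, D.a_one] at h1
  exact h1

/-- the neighbourhoods `W_m` of the base point. -/
def W (m : ℕ) : Set D.X := {z | z.1 m 1 = true}

theorem W_anti : Antitone D.W := by
  refine antitone_nat_of_succ_le fun m z hz => ?_
  have h1 := D.p1 z (Nat.le_succ m) (one_mem _) hz
  rw [D.a_one] at h1
  exact h1

theorem exists_W {O : Set D.X} (hO : O ∈ 𝓝 D.pt) : ∃ m, D.W m ⊆ O := by
  have hle : (⨅ m, 𝓟 (D.W m)) ≤ 𝓝 D.pt := by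
    have : Tendsto (fun z : D.X => z) (⨅ m, 𝓟 (D.W m)) (𝓝 D.pt) := by
      rw [D.isInducing_val.tendsto_nhds_iff, tendsto_pi_nhds]
      intro n
      rw [tendsto_pi_nhds]
      intro g
      obtain ⟨m, hm⟩ := D.exh g
      refine tendsto_const_nhds.congr' ?_
      have hmem : D.W (max m n) ∈ ⨅ m, 𝓟 (D.W m) := mem_iInf_of_mem (max m n) (mem_principal_self _)
      filter_upwards [hmem] with z hz
      have h1 := D.p1 z (le_max_right m n) (hm _ (le_max_left m n)) hz
      have h2 : D.pt.1 n g = D.a n (g * 1) := rfl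
      rw [mul_one] at h2
      exact h2.trans h1.symm
    exact this
  have h1 := hle hO
  rw [mem_iInf_of_directed] at h1
  · obtain ⟨m, hm⟩ := h1
    exact ⟨m, hm⟩
  · intro i j
    exact ⟨max i j, by
      simpa using D.W_anti (le_max_left i j), by simpa using D.W_anti (le_max_right i j)⟩

theorem dense_orbit (z : D.X) : Dense (MulAction.orbit G z) := by
  -- the base point is in the closure
  have hpt : D.pt ∈ closure (MulAction.orbit G z) := by
    rw [mem_closure_iff_nhds]
    intro O hO
    obtain ⟨m, hm⟩ := D.exists_W hO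
    obtain ⟨s, hs⟩ := D.P2 m
    have : ∃ i, z.1 m (s i) = true := by
      by_contra hcon
      push Not at hcon
      have h0 : z.1 m (s 0) = false := by simpa using hcon 0
      have h1 : z.1 m (s 1) = false := by simpa using hcon 1
      exact absurd (D.p2 hs z h0 h1) (by decide)
    obtain ⟨i, hi⟩ := this
    refine ⟨s i • z, hm ?_, s i, rfl⟩
    change (s i • z).1 m 1 = true
    rw [smul_val, one_mul, hi]
  have horb : ∀ h : G, h • D.pt ∈ closure (MulAction.orbit G z) := by
    intro h
    refine map_mem_closure (continuous_const_smul h) hpt ?_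
    rintro _ ⟨g, rfl⟩
    exact ⟨h * g, mul_smul h g z⟩
  have hdense : Dense (Set.range fun h : G => h • D.pt) := by
    have h1 : DenseRange (fun h : G => (⟨D.orb h, subset_closure ⟨h, rfl⟩⟩ : D.X)) := by
      intro x
      rw [closure_subtype]
      have h2 : (Subtype.val '' Set.range fun h : G =>
          (⟨D.orb h, subset_closure ⟨h, rfl⟩⟩ : D.X)) = Set.range D.orb := by
        ext w
        simp
      rw [h2]
      exact x.2
    have h3 : (fun h : G => h • D.pt) =
        (fun h : G => (⟨D.orb h, subset_closure ⟨h, rfl⟩⟩ : D.X)) := by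
      ext1 h
      apply Subtype.ext
      change tr h (D.orb 1) = D.orb h
      rw [D.tr_orb, mul_one]
    rw [h3]
    exact h1
  intro x
  have h4 : Set.range (fun h : G => h • D.pt) ⊆ closure (MulAction.orbit G z) := by
    rintro _ ⟨h, rfl⟩
    exact horb h
  exact closure_minimal h4 isClosed_closure (hdense x)

theorem stronglyProximal : StronglyProximal G D.X := by
  letI : MeasurableSpace D.X := borel D.X
  haveI : BorelSpace D.X := ⟨rfl⟩
  intro μ hμ _
  refine ⟨D.pt, fun F ε hε => ?_⟩
  -- a common bound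
  obtain ⟨C, hC0, hC⟩ : ∃ C : ℝ, 0 < C ∧ ∀ f ∈ F, ∀ z, |f z| ≤ C := by
    refine ⟨∑ f ∈ F, ‖f‖ + 1, by positivity, fun f hf z => ?_⟩
    have h1 : |f z| ≤ ‖f‖ := f.norm_coe_le_norm z
    have h2 : ‖f‖ ≤ ∑ f ∈ F, ‖f‖ :=
      Finset.single_le_sum (f := fun f : C(D.X, ℝ) => ‖f‖) (fun _ _ => norm_nonneg _) hf
    linarith
  -- a common neighbourhood
  have hO : {z : D.X | ∀ f ∈ F, |f z - f D.pt| < ε / 2} ∈ 𝓝 D.pt := by
    have : ∀ᶠ z in 𝓝 D.pt, ∀ f ∈ F, |f z - f D.pt| < ε / 2 := by
      rw [Filter.eventually_all_finset]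
      intro f _
      have h1 := (f.continuous.continuousAt (x := D.pt))
      have h2 := (Metric.tendsto_nhds.1 h1) (ε / 2) (by positivity)
      filter_upwards [h2] with z hz
      simpa [Real.dist_eq] using hz
    exact this
  obtain ⟨m, hm⟩ := D.exists_W hO
  obtain ⟨s, hs⟩ := D.P2 m
  -- sets of small measure
  let V : ℕ → Set D.X := fun i => {z | z.1 m (s i) = false}
  have hVm : ∀ i, MeasurableSet (V i) := fun i =>
    (isClosed_eq (D.continuous_ev m (s i)) continuous_const).measurableSet
  have hVd : Pairwise (Function.onFun Disjoint V) := by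
    intro i j hij
    rw [Function.onFun, Set.disjoint_left]
    intro z hi hj
    exact hij (D.p2 hs z hi hj)
  have hsum : ∑' i, μ (V i) ≠ ⊤ := by
    rw [← measure_iUnion hVd hVm]
    exact measure_ne_top _ _
  have ht := ENNReal.tendsto_atTop_zero_of_tsum_ne_top hsum
  have hpos : (0 : ENNReal) < ENNReal.ofReal (ε / (4 * C + 1)) := by
    rw [ENNReal.ofReal_pos]; positivity
  obtain ⟨i, hi⟩ := (ht.eventually (gt_mem_nhds hpos)).exists
  have hVi : (μ (V i)).toReal < ε / (4 * C + 1) := by
    have := (ENNReal.toReal_lt_toReal (measure_ne_top _ _) (by simp)).2 hi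
    rwa [ENNReal.toReal_ofReal (by positivity)] at this
  refine ⟨s i, fun f hf => ?_⟩
  have hcs : Continuous fun y : D.X => s i • y := continuous_const_smul (s i)
  rw [integral_map hcs.measurable.aemeasurable f.continuous.aestronglyMeasurable]
  have hint : Integrable (fun y => f (s i • y)) μ := by
    refine Integrable.of_bound (C := C) (f.continuous.comp hcs).aestronglyMeasurable ?_
    exact Eventually.of_forall fun y => by rw [Real.norm_eq_abs]; exact hC f hf _
  have e1 : ∫ y, f (s i • y) ∂μ - f D.pt = ∫ y, (f (s i • y) - f D.pt) ∂μ := by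
    rw [integral_sub hint (integrable_const _)]
    simp
  rw [e1]
  have hbound : ∀ y, |f (s i • y) - f D.pt| ≤ ε / 2 + (V i).indicator (fun _ => 2 * C) y := by
    intro y
    by_cases hy : y ∈ V i
    · rw [Set.indicator_of_mem hy]
      have h1 := hC f hf (s i • y)
      have h2 := hC f hf D.pt
      rw [abs_le] at *
      constructor <;> linarith
    · rw [Set.indicator_of_notMem hy, add_zero]
      have h1 : s i • y ∈ D.W m := by
        change (s i • y).1 m 1 = true
        rw [smul_val, one_mul]
        simpa [V] using hy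
      exact (hm h1 f hf).le
  calc |∫ y, (f (s i • y) - f D.pt) ∂μ| ≤ ∫ y, |f (s i • y) - f D.pt| ∂μ :=
        abs_integral_le_integral_abs
    _ ≤ ∫ y, (ε / 2 + (V i).indicator (fun _ => 2 * C) y) ∂μ := by
        refine integral_mono_of_nonneg (Eventually.of_forall fun _ => abs_nonneg _) ?_
          (Eventually.of_forall hbound)
        exact (integrable_const _).add ((integrable_const _).indicator (hVm i))
    _ = ε / 2 + 2 * C * (μ (V i)).toReal := by
        rw [integral_add (integrable_const _) ((integrable_const _).indicator (hVm i)),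
          integral_indicator_const _ (hVm i)]
        simp [Measure.real, mul_comm]
    _ < ε := by
        have h1 : 2 * C * (μ (V i)).toReal ≤ 2 * C * (ε / (4 * C + 1)) := by gcongr
        have h2 : 2 * C * (ε / (4 * C + 1)) < ε / 2 := by
          rw [mul_div_assoc', div_lt_div_iff₀ (by positivity) (by positivity)]
          nlinarith
        linarith

theorem isGBoundary : IsGBoundary G D.X := ⟨⟨D.pt⟩, D.dense_orbit, D.stronglyProximal⟩

end BdData

end Pool.Agent.MP977
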