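import Mathlib

/-!
# MP_977f72_an : definitions

Boundaries of locally compact groups, and the reduced group `C*`-algebra.
-/

set_option autoImplicit false

open MeasureTheory

namespace Pool.Agent.MP977

section Boundaries

variable (G : Type) [Group G] [TopologicalSpace G]

/-- A compact `G`-space `X` is strongly proximal: for every Radon probability measure `m` on `X`
some Dirac mass lies in the weak-* closure of the set of the translates `g_* m`. -/
def StronglyProximal (X : Type) [TopologicalSpace X] [MulAction G X] : Prop :=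
  letI : MeasurableSpace X := borel X
  ∀ m : Measure X, IsProbabilityMeasure m → m.Regular →
    ∃ x : X, ∀ (F : Finset C(X, ℝ)) (ε : ℝ), 0 < ε →
      ∃ g : G, ∀ f ∈ F, |∫ y, f y ∂(m.map fun y => g • y) - f x| < ε

/-- `X` is a `G`-boundary (`X` compact Hausdorff with a jointly continuous action): it is
non-empty, minimal and strongly proximal. -/
def IsGBoundary (X : Type) [TopologicalSpace X] [MulAction G X] : Prop :=
  Nonempty X ∧ (∀ x : X, Dense (MulAction.orbit G x)) ∧ StronglyProximal G X

/-- `B` is the Furstenberg boundary of `G`: a `G`-boundary that maps continuously and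
equivariantly onto every `G`-boundary. -/
def IsFurstenbergBoundary (B : Type) [TopologicalSpace B] [MulAction G B] : Prop :=
  IsGBoundary G B ∧
    ∀ (X : Type) [TopologicalSpace X] [CompactSpace X] [T2Space X] [MulAction G X]
      [ContinuousSMul G X], IsGBoundary G X →
      ∃ φ : B → X, Continuous φ ∧ Function.Surjective φ ∧ ∀ (g : G) (b : B), φ (g • b) = g • φ b

end Boundaries

section Ideals

variable {𝔸 : Type} [NormedRing 𝔸] [NormedAlgebra ℂ 𝔸]

/-- `J` is a closed two-sided ideal of the closed algebra `A` of operators. -/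
structure IsClosedIdeal (A J : Set 𝔸) : Prop where
  subset : J ⊆ A
  closed : IsClosed J
  zero : 0 ∈ J
  add : ∀ x ∈ J, ∀ y ∈ J, x + y ∈ J
  smul : ∀ (c : ℂ), ∀ x ∈ J, c • x ∈ J
  left : ∀ a ∈ A, ∀ x ∈ J, a * x ∈ J
  right : ∀ a ∈ A, ∀ x ∈ J, x * a ∈ J

/-- The algebra `A` is simple: its only closed two-sided ideals are `0` and `A`. -/
def IsSimpleAlg (A : Set 𝔸) : Prop := ∀ J, IsClosedIdeal A J → J = {0} ∨ J = A

end Ideals

section CStar

variable {G : Type} [MeasurableSpace G]

/-- The Hilbert space `L²(G, μ)`. -/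
def L2 (μ : Measure G) : Type := Lp ℂ 2 μ

noncomputable instance (μ : Measure G) : NormedAddCommGroup (L2 μ) :=
  inferInstanceAs (NormedAddCommGroup (Lp ℂ 2 μ))

noncomputable instance (μ : Measure G) : NormedSpace ℂ (L2 μ) :=
  inferInstanceAs (NormedSpace ℂ (Lp ℂ 2 μ))

/-- The function (up to null sets) given by an element of `L²(G, μ)`. -/
noncomputable def L2.fn {μ : Measure G} (ξ : L2 μ) : G → ℂ := (show Lp ℂ 2 μ from ξ)

/-- The operators `λ(f)`, `f ∈ L¹(G)`, on `L²(G)`: the bounded operators `T` with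
`(T ξ)(x) = ∫ f(g) ξ(g⁻¹ x) dg` for almost all `x`. -/
def convOps [Group G] (μ : Measure G) : Set (L2 μ →L[ℂ] L2 μ) :=
  {T | ∃ f : G → ℂ, Integrable f μ ∧
    ∀ ξ : L2 μ, ∀ᵐ x ∂μ, (T ξ).fn x = ∫ g, f g * ξ.fn (g⁻¹ * x) ∂μ}

/-- The reduced group `C*`-algebra: the norm closure of `λ(L¹(G))` in `B(L²(G))`. -/
def reducedCStar [Group G] (μ : Measure G) : Set (L2 μ →L[ℂ] L2 μ) := closure (convOps μ)

end CStar

end Pool.Agent.MP977
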