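import Mathlib

/-!
# MP_977f72_an : one step of the tower

For a group `Q` let `P = Q * F_∞` and `Ext Q = (⨁_{P/Q} ℤ/2) ⋊ P`.  We record the facts needed for
the tower: the embedding `Q × ℤ/2 → Ext Q`, the direction map `Ext Q → Q`, a locally finite
subgroup of `Ext Q` with a sign character.
-/

set_option autoImplicit false

namespace Pool.Agent.MP977

open Monoid

/-- `H` is locally finite: every finite subset of `H` lies in a finite subgroup of `H`. -/
def LocFin {Q : Type} [Group Q] (H : Subgroup Q) : Prop :=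
  ∀ S : Finset Q, (↑S : Set Q) ⊆ H → ∃ B : Subgroup Q, B ≤ H ∧ (↑S : Set Q) ⊆ B ∧
    (B : Set Q).Finite

section Step

variable (Q : Type) [Group Q]

/-- the free product of `Q` and a free group of infinite rank. -/
abbrev FP : Type := Monoid.Coprod Q (FreeGroup ℕ)

/-- the set on which the free product acts. -/
abbrev PX : Type := Q × List (ℕ × {q : Q // q ≠ 1})

open Classical in
/-- the involutions of the ping-pong. -/
noncomputable def swapFun (i : ℕ) (x : PX Q) : PX Q :=
  if h : x.1 ≠ 1 then (1, (i, ⟨x.1, h⟩) :: x.2) else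
    match x.2 with
    | [] => (1, [])
    | (j, a) :: w => if j = i then (a.1, w) else (1, (j, a) :: w)

theorem swapFun_swapFun (i : ℕ) (x : PX Q) : swapFun Q i (swapFun Q i x) = x := by
  classical
  obtain ⟨q, w⟩ := x
  by_cases h : q = 1
  · subst h
    rcases w with _ | ⟨⟨j, a⟩, w⟩
    · simp [swapFun]
    · by_cases hj : j = i
      · subst hj
        have := a.2
        simp [swapFun, this]
      · simp [swapFun, hj]
  · simp [swapFun, h]

theorem swapFun_fst_ne {i : ℕ} {x : PX Q} (h : (swapFun Q i x).1 ≠ 1) :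
    ∃ a w, x.2 = (i, a) :: w := by
  classical
  obtain ⟨q, w⟩ := x
  by_cases hq : q = 1
  · subst hq
    rcases w with _ | ⟨⟨j, a⟩, w⟩
    · simp [swapFun] at h
    · by_cases hj : j = i
      · subst hj
        exact ⟨a, w, rfl⟩
      · simp [swapFun, hj] at h
  · simp [swapFun, hq] at h

/-- the involution as a permutation. -/
noncomputable def swapPerm (i : ℕ) : Equiv.Perm (PX Q) where
  toFun := swapFun Q i
  invFun := swapFun Q i
  left_inv := swapFun_swapFun Q i
  right_inv := swapFun_swapFun Q i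

/-- left multiplication of `Q` on the first coordinate. -/
def leftHom : Q →* Equiv.Perm (PX Q) where
  toFun q :=
    { toFun := fun x => (q * x.1, x.2)
      invFun := fun x => (q⁻¹ * x.1, x.2)
      left_inv := fun x => by simp
      right_inv := fun x => by simp }
  map_one' := by ext x <;> simp
  map_mul' a b := by ext x <;> simp [mul_assoc]

/-- the action of the free product. -/
noncomputable def actHom : FP Q →* Equiv.Perm (PX Q) :=
  Monoid.Coprod.lift (leftHom Q) (FreeGroup.lift (swapPerm Q))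

/-- the direction map `P → Q`. -/
noncomputable def dir (p : FP Q) : Q := (actHom Q p (1, [])).1

theorem dir_one : dir Q 1 = 1 := by simp [dir]

theorem dir_inl_mul (q : Q) (p : FP Q) : dir Q (Coprod.inl q * p) = q * dir Q p := by
  simp [dir, actHom, leftHom]

/-- the generators of the free group. -/
def gen (i : ℕ) : FP Q := Coprod.inr (FreeGroup.of i)

theorem dir_gen_mul {i j : ℕ} {p : FP Q} (hi : dir Q (gen Q i * p) ≠ 1)
    (hj : dir Q (gen Q j * p) ≠ 1) : i = j := by
  have key : ∀ k, dir Q (gen Q k * p) = (swapFun Q k (actHom Q p (1, []))).1 := by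
    intro k
    simp [dir, actHom, gen, swapPerm]
  rw [key] at hi hj
  obtain ⟨a, w, h1⟩ := swapFun_fst_ne Q hi
  obtain ⟨b, w', h2⟩ := swapFun_fst_ne Q hj
  rw [h1] at h2
  simp only [List.cons.injEq, Prod.mk.injEq] at h2
  exact h2.1.1

/-- the copy of `Q` in the free product. -/
def base : Subgroup (FP Q) := (Coprod.inl : Q →* FP Q).range

/-- the coset space `P/Q`. -/
abbrev Cos : Type := FP Q ⧸ base Q

/-- the base point of `P/Q`. -/
def v0 : Cos Q := ((1 : FP Q) : Cos Q)

theorem smul_v0 (p : FP Q) : p • v0 Q = v0 Q ↔ ∃ q : Q, p = Coprod.inl q := by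
  have : p • v0 Q = ((p : FP Q) : Cos Q) := by
    simp [v0, MulAction.Quotient.smul_mk]
  rw [this, v0, QuotientGroup.eq]
  simp only [mul_one, base, inv_mem_iff, MonoidHom.mem_range]
  constructor
  · rintro ⟨q, hq⟩; exact ⟨q, hq.symm⟩
  · rintro ⟨q, hq⟩; exact ⟨q, hq.symm⟩

theorem inl_smul_v0 (q : Q) : (Coprod.inl q : FP Q) • v0 Q = v0 Q :=
  (smul_v0 Q _).2 ⟨q, rfl⟩

/-- the wreath product `(⨁_{P/Q} ℤ/2) ⋊ P`. -/
@[ext] structure Ext : Type where
  a : Cos Q →₀ ZMod 2
  p : FP Q

variable {Q}

/-- translation of the lamps. -/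
noncomputable def act (p : FP Q) (a : Cos Q →₀ ZMod 2) : Cos Q →₀ ZMod 2 :=
  a.equivMapDomain (MulAction.toPerm p)

theorem act_apply (p : FP Q) (a : Cos Q →₀ ZMod 2) (v : Cos Q) : act p a v = a (p⁻¹ • v) := by
  simp [act]

@[simp] theorem act_one (a : Cos Q →₀ ZMod 2) : act 1 a = a := by
  ext v; simp [act_apply]

@[simp] theorem act_mul (p p' : FP Q) (a : Cos Q →₀ ZMod 2) :
    act (p * p') a = act p (act p' a) := by
  ext v; simp [act_apply, mul_smul]

@[simp] theorem act_add (p : FP Q) (a b : Cos Q →₀ ZMod 2) :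
    act p (a + b) = act p a + act p b := by
  ext v; simp [act_apply]

@[simp] theorem act_neg (p : FP Q) (a : Cos Q →₀ ZMod 2) :
    act p (-a) = -act p a := by
  ext v; simp [act_apply]

@[simp] theorem act_zero (p : FP Q) : act p (0 : Cos Q →₀ ZMod 2) = 0 := by
  ext v; simp [act_apply]

theorem act_single (p : FP Q) (v : Cos Q) (c : ZMod 2) :
    act p (Finsupp.single v c) = Finsupp.single (p • v) c := by
  simp [act]

theorem act_inl_v0 (q : Q) (a : Cos Q →₀ ZMod 2) :
    act (Coprod.inl q) a (v0 Q) = a (v0 Q) := by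
  rw [act_apply, ← map_inv, inl_smul_v0]

noncomputable instance : Mul (Ext Q) := ⟨fun x y => ⟨x.a + act x.p y.a, x.p * y.p⟩⟩
noncomputable instance : One (Ext Q) := ⟨⟨0, 1⟩⟩
noncomputable instance : Inv (Ext Q) := ⟨fun x => ⟨-act x.p⁻¹ x.a, x.p⁻¹⟩⟩

@[simp] theorem mul_a (x y : Ext Q) : (x * y).a = x.a + act x.p y.a := rfl
@[simp] theorem mul_p (x y : Ext Q) : (x * y).p = x.p * y.p := rfl
@[simp] theorem one_a : (1 : Ext Q).a = 0 := rfl
@[simp] theorem one_p : (1 : Ext Q).p = 1 := rfl
@[simp] theorem inv_a (x : Ext Q) : (x⁻¹).a = -act x.p⁻¹ x.a := rfl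
@[simp] theorem inv_p (x : Ext Q) : (x⁻¹).p = x.p⁻¹ := rfl

noncomputable instance : Group (Ext Q) :=
  Group.ofLeftAxioms
    (fun x y z => by ext1 <;> simp [add_assoc, mul_assoc])
    (fun x => by ext1 <;> simp)
    (fun x => by ext1 <;> simp)

/-- the total parity of the lamps. -/
noncomputable def par (a : Cos Q →₀ ZMod 2) : ZMod 2 := a.degree

theorem par_add (a b : Cos Q →₀ ZMod 2) : par (a + b) = par a + par b := map_add _ _ _

theorem par_neg (a : Cos Q →₀ ZMod 2) : par (-a) = - par a := by
  have := par_add a (-a)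
  rw [add_neg_cancel] at this
  have h0 : par (0 : Cos Q →₀ ZMod 2) = 0 := map_zero _
  rw [h0] at this
  exact (neg_eq_of_add_eq_zero_right this.symm).symm

theorem par_zero : par (0 : Cos Q →₀ ZMod 2) = 0 := map_zero _

theorem par_single (v : Cos Q) (c : ZMod 2) : par (Finsupp.single v c) = c := by
  simp [par]

theorem par_act (p : FP Q) (a : Cos Q →₀ ZMod 2) : par (act p a) = par a := by
  induction a using Finsupp.induction_linear with
  | zero => simp
  | add f g hf hg => rw [act_add, par_add, par_add, hf, hg]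
  | single v c => rw [act_single, par_single, par_single]

end Step

end Pool.Agent.MP977
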