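import Mathlib
import Pool.Agent.Lib.MP_977f72_an.h30.Defs
import Pool.Agent.Lib.MP_977f72_an.h30.Step

section

/-!
# MP_977f72_an : states on `C(X)` and strong proximality of products
-/

set_option autoImplicit false
set_option linter.unusedSectionVars false
set_option linter.style.haveILetI false

open MeasureTheory Topology Filter

namespace Pool.Agent.MP977

section States

variable {X Y : Type} [TopologicalSpace X] [TopologicalSpace Y]

/-- states on `C(X, ℝ)`, as a subset of the product `ℝ^{C(X, ℝ)}`. -/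
def States (X : Type) [TopologicalSpace X] : Set (C(X, ℝ) → ℝ) :=
  {Λ | (∀ f g, Λ (f + g) = Λ f + Λ g) ∧ (∀ (c : ℝ) f, Λ (c • f) = c * Λ f) ∧
    (∀ f : C(X, ℝ), (∀ x, 0 ≤ f x) → 0 ≤ Λ f) ∧ Λ 1 = 1}

theorem isClosed_states : IsClosed (States X) := by
  have h : States X = (⋂ f, ⋂ g, {Λ | Λ (f + g) = Λ f + Λ g}) ∩
      ((⋂ c : ℝ, ⋂ f, {Λ | Λ (c • f) = c * Λ f}) ∩
      ((⋂ f : C(X, ℝ), ⋂ (_ : ∀ x, 0 ≤ f x), {Λ | 0 ≤ Λ f}) ∩ {Λ | Λ 1 = 1})) := by
    ext Λ
    simp [States]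
  rw [h]
  refine IsClosed.inter ?_ (IsClosed.inter ?_ (IsClosed.inter ?_ ?_))
  · exact isClosed_iInter fun f => isClosed_iInter fun g => isClosed_eq (by fun_prop) (by fun_prop)
  · exact isClosed_iInter fun c => isClosed_iInter fun f => isClosed_eq (by fun_prop) (by fun_prop)
  · exact isClosed_iInter fun f => isClosed_iInter fun _ => isClosed_le (by fun_prop) (by fun_prop)
  · exact isClosed_eq (by fun_prop) (by fun_prop)

theorem states_neg {Λ : C(X, ℝ) → ℝ} (h : Λ ∈ States X) (f : C(X, ℝ)) : Λ (-f) = -Λ f := by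
  have := h.2.1 (-1) f
  rw [neg_one_smul] at this
  rw [this]; ring

theorem states_sub {Λ : C(X, ℝ) → ℝ} (h : Λ ∈ States X) (f g : C(X, ℝ)) :
    Λ (f - g) = Λ f - Λ g := by
  rw [sub_eq_add_neg, h.1, states_neg h]; ring

theorem states_mono {Λ : C(X, ℝ) → ℝ} (h : Λ ∈ States X) {f g : C(X, ℝ)} (hfg : ∀ x, f x ≤ g x) :
    Λ f ≤ Λ g := by
  have := h.2.2.1 (g - f) (fun x => by
    rw [ContinuousMap.sub_apply]; linarith [hfg x])
  rw [states_sub h] at this
  linarith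

theorem states_abs_le {Λ : C(X, ℝ) → ℝ} (h : Λ ∈ States X) {f g : C(X, ℝ)}
    (hfg : ∀ x, |f x| ≤ g x) : |Λ f| ≤ Λ g := by
  rw [abs_le]
  constructor
  · rw [← states_neg h]
    exact states_mono h fun x => by
      rw [ContinuousMap.neg_apply]; exact (abs_le.1 (hfg x)).1
  · exact states_mono h fun x => (abs_le.1 (hfg x)).2

theorem states_le_norm [CompactSpace X] {Λ : C(X, ℝ) → ℝ} (h : Λ ∈ States X) (f : C(X, ℝ)) :
    |Λ f| ≤ ‖f‖ := by
  have h1 := states_abs_le h (f := f) (g := ‖f‖ • (1 : C(X, ℝ))) (fun x => by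
    simpa using f.norm_coe_le_norm x)
  rwa [h.2.1, h.2.2.2, mul_one] at h1

theorem isCompact_states [CompactSpace X] : IsCompact (States X) := by
  have h1 : IsCompact (Set.pi Set.univ fun f : C(X, ℝ) => Set.Icc (-‖f‖) ‖f‖) :=
    isCompact_univ_pi fun f => isCompact_Icc
  refine h1.of_isClosed_subset isClosed_states ?_
  intro Λ hΛ f _
  exact abs_le.1 (states_le_norm hΛ f)

/-- push-forward of a state. -/
def push (p : C(X, Y)) (Λ : C(X, ℝ) → ℝ) : C(Y, ℝ) → ℝ := fun f => Λ (f.comp p)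

theorem continuous_push (p : C(X, Y)) : Continuous (push p) := by
  unfold push
  fun_prop

theorem push_mem (p : C(X, Y)) {Λ : C(X, ℝ) → ℝ} (h : Λ ∈ States X) : push p Λ ∈ States Y := by
  refine ⟨fun f g => ?_, fun c f => ?_, fun f hf => ?_, ?_⟩
  · exact h.1 (f.comp p) (g.comp p)
  · exact h.2.1 c (f.comp p)
  · exact h.2.2.1 (f.comp p) fun x => hf (p x)
  · exact h.2.2.2

/-- Dirac states. -/
def dirac (x : X) : C(X, ℝ) → ℝ := fun f => f x

theorem dirac_mem (x : X) : dirac x ∈ States X :=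
  ⟨fun _ _ => rfl, fun _ _ => rfl, fun _ h => h x, rfl⟩

theorem continuous_dirac : Continuous (dirac : X → C(X, ℝ) → ℝ) :=
  continuous_pi fun f => f.continuous

theorem push_dirac (p : C(X, Y)) (x : X) : push p (dirac x) = dirac (p x) := rfl

theorem push_push {Z : Type} [TopologicalSpace Z] (p : C(X, Y)) (q : C(Y, Z))
    (Λ : C(X, ℝ) → ℝ) : push q (push p Λ) = push (q.comp p) Λ := rfl

theorem mem_closure_fun_iff {ι : Type} {Λ₀ : ι → ℝ} {S : Set (ι → ℝ)} :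
    Λ₀ ∈ closure S ↔ ∀ (F : Finset ι) (ε : ℝ), 0 < ε → ∃ Λ ∈ S, ∀ f ∈ F, |Λ f - Λ₀ f| < ε := by
  constructor
  · intro h F ε hε
    have hO : {Λ : ι → ℝ | ∀ f ∈ F, |Λ f - Λ₀ f| < ε} ∈ 𝓝 Λ₀ := by
      have : ∀ᶠ Λ in 𝓝 Λ₀, ∀ f ∈ F, |Λ f - Λ₀ f| < ε := by
        rw [Filter.eventually_all_finset]
        intro f _
        have h1 : ContinuousAt (fun Λ : ι → ℝ => Λ f) Λ₀ := (continuous_apply f).continuousAt
        have h2 := (Metric.tendsto_nhds.1 h1) ε hε
        filter_upwards [h2] with Λ hΛ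
        simpa [Real.dist_eq] using hΛ
      exact this
    obtain ⟨Λ, h1, h2⟩ := mem_closure_iff_nhds.1 h _ hO
    exact ⟨Λ, h2, h1⟩
  · intro h
    rw [mem_closure_iff_nhds]
    intro O hO
    rw [nhds_pi, Filter.mem_pi'] at hO
    obtain ⟨F, t, ht, hsub⟩ := hO
    have h1 : ∀ᶠ ε in 𝓝[>] (0 : ℝ), ∀ f ∈ F, Metric.ball (Λ₀ f) ε ⊆ t f := by
      rw [Filter.eventually_all_finset]
      intro f _
      obtain ⟨ε', hε', hb⟩ := Metric.mem_nhds_iff.1 (ht f)
      have h2 : ∀ᶠ ε in 𝓝[>] (0 : ℝ), ε < ε' :=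
        mem_nhdsWithin_of_mem_nhds (gt_mem_nhds hε')
      filter_upwards [h2] with ε hε
      exact (Metric.ball_subset_ball hε.le).trans hb
    obtain ⟨ε, hε, hε0⟩ := (h1.and self_mem_nhdsWithin).exists
    obtain ⟨Λ, hΛ, hΛ'⟩ := h F ε hε0
    refine ⟨Λ, hsub fun f hf => hε f hf ?_, hΛ⟩
    rw [Metric.mem_ball, Real.dist_eq]
    exact hΛ' f hf

end States

section Action

variable (G : Type) [Group G]
variable {X : Type} [TopologicalSpace X] [MulAction G X] [ContinuousConstSMul G X]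

variable {G} in
/-- the action as a continuous map. -/
def sm (g : G) : C(X, X) := ⟨fun x => g • x, continuous_const_smul g⟩

variable (X) in
/-- strong proximality in terms of states. -/
def SPf : Prop := ∀ Λ ∈ States X, ∃ x : X, dirac x ∈ closure (Set.range fun g : G => push (sm g) Λ)

variable {G} in
theorem push_sm_mul (g h : G) (Λ : C(X, ℝ) → ℝ) :
    push (sm g) (push (sm h) Λ) = push (sm (g * h)) Λ := by
  rw [push_push]
  congr 1
  ext x
  simp [sm, mul_smul]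

open CompactlySupported in
theorem spf_of_stronglyProximal [CompactSpace X] [T2Space X] [TopologicalSpace G]
    (h : StronglyProximal G X) : SPf G X := by
  intro Λ hΛ
  letI : MeasurableSpace X := borel X
  haveI : BorelSpace X := ⟨rfl⟩
  let ΛC : C_c(X, ℝ) →ₚ[ℝ] ℝ :=
    { toFun := fun f => Λ f.toContinuousMap
      map_add' := fun f g => hΛ.1 _ _
      map_smul' := fun c f => hΛ.2.1 _ _
      monotone' := fun f g hfg => states_mono hΛ hfg }
  let m := RealRMK.rieszMeasure ΛC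
  have hm : ∀ f : C(X, ℝ), ∫ x, f x ∂m = Λ f := by
    intro f
    let f' : C_c(X, ℝ) := ⟨f, HasCompactSupport.of_compactSpace _⟩
    exact RealRMK.integral_rieszMeasure ΛC f'
  have hreg : m.Regular := inferInstance
  haveI hfin : IsFiniteMeasure m := inferInstance
  have hprob : IsProbabilityMeasure m := by
    have h1 := hm 1
    rw [hΛ.2.2.2] at h1
    simp only [ContinuousMap.one_apply, integral_const, smul_eq_mul, mul_one] at h1
    constructor
    rw [Measure.real] at h1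
    rw [← ENNReal.toReal_eq_one_iff]
    exact h1
  obtain ⟨x, hx⟩ := h m hprob hreg
  refine ⟨x, mem_closure_fun_iff.2 fun F ε hε => ?_⟩
  obtain ⟨g, hg⟩ := hx F ε hε
  refine ⟨_, ⟨g, rfl⟩, fun f hf => ?_⟩
  have h1 := hg f hf
  have hcs : Continuous fun y : X => g • y := continuous_const_smul g
  rw [integral_map hcs.measurable.aemeasurable f.continuous.aestronglyMeasurable] at h1
  have h2 := hm (f.comp (sm g))
  have h3 : ∫ y, f (g • y) ∂m = Λ (f.comp (sm g)) := h2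
  rw [h3] at h1
  exact h1

theorem stronglyProximal_of_spf [CompactSpace X] [TopologicalSpace G]
    (h : SPf G X) : StronglyProximal G X := by
  letI : MeasurableSpace X := borel X
  haveI : BorelSpace X := ⟨rfl⟩
  intro m hm _
  have hint : ∀ f : C(X, ℝ), Integrable (fun x => f x) m := fun f =>
    Integrable.of_bound (C := ‖f‖) f.continuous.aestronglyMeasurable
      (Eventually.of_forall fun x => f.norm_coe_le_norm x)
  obtain ⟨x, hx⟩ := h (fun f => ∫ y, f y ∂m) ⟨fun f g => integral_add (hint f) (hint g),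
    fun c f => integral_const_mul c _, fun f hf => integral_nonneg hf, by simp⟩
  refine ⟨x, fun F ε hε => ?_⟩
  obtain ⟨_, ⟨g, rfl⟩, hg⟩ := mem_closure_fun_iff.1 hx F ε hε
  refine ⟨g, fun f hf => ?_⟩
  have hcs : Continuous fun y : X => g • y := continuous_const_smul g
  rw [integral_map hcs.measurable.aemeasurable f.continuous.aestronglyMeasurable]
  exact hg f hf

end Action

/-- minimal closed invariant sets exist. -/
theorem exists_min {Y ι : Type} [TopologicalSpace Y] (a : ι → Y → Y) {S : Set Y}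
    (hSc : IsCompact S) (hScl : IsClosed S) (hne : S.Nonempty) (hinv : ∀ i, ∀ y ∈ S, a i y ∈ S) :
    ∃ M ⊆ S, IsClosed M ∧ M.Nonempty ∧ (∀ i, ∀ y ∈ M, a i y ∈ M) ∧
      ∀ M' ⊆ M, IsClosed M' → M'.Nonempty → (∀ i, ∀ y ∈ M', a i y ∈ M') → M' = M := by
  obtain ⟨M, hM⟩ := zorn_superset
    {M : Set Y | M ⊆ S ∧ IsClosed M ∧ M.Nonempty ∧ ∀ i, ∀ y ∈ M, a i y ∈ M} (by
      intro c hc hchain
      rcases c.eq_empty_or_nonempty with rfl | hcne
      · exact ⟨S, ⟨subset_rfl, hScl, hne, hinv⟩, by simp⟩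
      · have hcn : Nonempty c := hcne.to_subtype
        refine ⟨⋂₀ c, ⟨?_, ?_, ?_, ?_⟩, fun s hs => Set.sInter_subset_of_mem hs⟩
        · obtain ⟨s, hs⟩ := hcne
          exact (Set.sInter_subset_of_mem hs).trans (hc hs).1
        · exact isClosed_sInter fun s hs => (hc hs).2.1
        · refine IsCompact.nonempty_sInter_of_directed_nonempty_isCompact_isClosed ?_ ?_ ?_ ?_
          · intro u hu v hv
            rcases hchain.total hu hv with h | h
            · exact ⟨u, hu, subset_rfl, h⟩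
            · exact ⟨v, hv, h, subset_rfl⟩
          · exact fun s hs => (hc hs).2.2.1
          · exact fun s hs => hSc.of_isClosed_subset (hc hs).2.1 (hc hs).1
          · exact fun s hs => (hc hs).2.1
        · intro i y hy s hs
          exact (hc hs).2.2.2 i y (hy s hs))
  refine ⟨M, hM.1.1, hM.1.2.1, hM.1.2.2.1, hM.1.2.2.2, fun M' hsub hcl hne' hinv' => ?_⟩
  exact subset_antisymm hsub (hM.2 ⟨hsub.trans hM.1.1, hcl, hne', hinv'⟩ hsub)

end Pool.Agent.MP977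
end

section

section

/-!
# MP_977f72_an : the limit group of a tower
-/

set_option autoImplicit false

namespace Pool.Agent.MP977

open Filter Topology

/-- The data of a tower of countable groups. -/
structure TowerData : Type 1 where
  Q : ℕ → Type
  grp : ∀ n, Group (Q n)
  cnt : ∀ n, Countable (Q n)
  fin0 : Finite (Q 0)
  ι : ∀ n, Q n → ZMod 2 → Q (n + 1)
  ι_mul : ∀ n q q' c c', ι n q c * ι n q' c' = ι n (q * q') (c + c')
  ι_inj : ∀ n q q' c c', ι n q c = ι n q' c' → q = q' ∧ c = c'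
  δ : ∀ n, Q (n + 1) → Q n
  δ_ι : ∀ n q c x, δ n (ι n q c * x) = q * δ n x
  δ_one : ∀ n, δ n 1 = 1
  P2 : ∀ n, ∃ p : ℕ → Q (n + 1), ∀ x i j, δ n (p i * x) ≠ 1 → δ n (p j * x) ≠ 1 → i = j
  H : ∀ n, Subgroup (Q n)
  H_ι : ∀ n q c, ι n q c ∈ H (n + 1) ↔ c = 0 ∧ q ∈ H n
  lf : ∀ n, LocFin (H n)
  sgn : ∀ n, Q n → ZMod 2
  sgn_mul : ∀ n, ∀ h ∈ H n, ∀ h' ∈ H n, sgn n (h * h') = sgn n h + sgn n h'
  sgn_ι : ∀ n, ∀ h ∈ H n, sgn (n + 1) (ι n h 0) = sgn n h
  F : ∀ n, Set (Q n)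
  F_succ : ∀ n, ∀ f ∈ F (n + 1), ∃ f' ∈ F n, ∃ c, f = ι n f' c
  cond : ∀ n, ∀ q : Q n, ∃ f ∈ F n, q⁻¹ * f * q ∈ H n ∧ sgn n (q⁻¹ * f * q) = 1

attribute [instance] TowerData.grp TowerData.cnt TowerData.fin0

namespace TowerData

variable (T : TowerData)

theorem ι_one (n : ℕ) : T.ι n 1 0 = 1 := by
  have := T.ι_mul n 1 1 0 0
  rw [mul_one, add_zero] at this
  exact mul_eq_left.1 this

theorem ι_inv (n : ℕ) (q : T.Q n) (c : ZMod 2) : (T.ι n q c)⁻¹ = T.ι n q⁻¹ (-c) := by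
  rw [inv_eq_iff_mul_eq_one, T.ι_mul, mul_inv_cancel, add_neg_cancel, T.ι_one]

/-- coherent sequences. -/
def Coh (m : ℕ) (x : ∀ n, T.Q n) : Prop := ∀ n, m ≤ n → ∃ c, x (n + 1) = T.ι n (x n) c

variable {T}

theorem Coh.mono {m k : ℕ} (h : m ≤ k) {x : ∀ n, T.Q n} (hx : T.Coh m x) : T.Coh k x :=
  fun n hn => hx n (h.trans hn)

theorem Coh.mul {m : ℕ} {x y : ∀ n, T.Q n} (hx : T.Coh m x) (hy : T.Coh m y) :
    T.Coh m (x * y) := by
  intro n hn
  obtain ⟨c, hc⟩ := hx n hn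
  obtain ⟨d, hd⟩ := hy n hn
  exact ⟨c + d, by simp [hc, hd, T.ι_mul]⟩

theorem Coh.inv {m : ℕ} {x : ∀ n, T.Q n} (hx : T.Coh m x) : T.Coh m x⁻¹ := by
  intro n hn
  obtain ⟨c, hc⟩ := hx n hn
  exact ⟨-c, by simp [hc, T.ι_inv]⟩

theorem Coh.one (m : ℕ) : T.Coh m 1 := fun n _ => ⟨0, by simp [T.ι_one]⟩

/-- two coherent sequences that agree at one late place agree everywhere before. -/
theorem Coh.desc {m : ℕ} {x y : ∀ n, T.Q n} (hx : T.Coh m x) (hy : T.Coh m y) :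
    ∀ j k, m ≤ k → x (k + j) = y (k + j) → x k = y k := by
  intro j
  induction j with
  | zero => intro k _ h; exact h
  | succ j ih =>
    intro k hk h
    have h1 : x (k + 1) = y (k + 1) := ih (k + 1) (by omega) (by
      have : k + 1 + j = k + (j + 1) := by ring
      rw [this]; exact h)
    obtain ⟨c, hc⟩ := hx k hk
    obtain ⟨d, hd⟩ := hy k hk
    rw [hc, hd] at h1
    exact (T.ι_inj _ _ _ _ _ h1).1

/-- the same for sequences coherent for the direction maps. -/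
theorem delta_desc {m : ℕ} {x y : ∀ n, T.Q n} (hx : ∀ n, m ≤ n → T.δ n (x (n + 1)) = x n)
    (hy : ∀ n, m ≤ n → T.δ n (y (n + 1)) = y n) :
    ∀ j k, m ≤ k → x (k + j) = y (k + j) → x k = y k := by
  intro j
  induction j with
  | zero => intro k _ h; exact h
  | succ j ih =>
    intro k hk h
    have h1 : x (k + 1) = y (k + 1) := ih (k + 1) (by omega) (by
      have : k + 1 + j = k + (j + 1) := by ring
      rw [this]; exact h)
    rw [← hx k hk, ← hy k hk, h1]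

theorem delta_exists (m : ℕ) : ∀ x : (∀ n, T.Q n), (∀ n, m ≤ n → T.δ n (x (n + 1)) = x n) →
    ∃ z : ∀ n, T.Q n, (∀ n, T.δ n (z (n + 1)) = z n) ∧ ∀ n, m ≤ n → z n = x n := by
  induction m with
  | zero => intro x hx; exact ⟨x, fun n => hx n (Nat.zero_le _), fun _ _ => rfl⟩
  | succ m ih =>
    intro x hx
    classical
    obtain ⟨z, hz, hzx⟩ := ih (Function.update x m (T.δ m (x (m + 1)))) (by
      intro n hn
      rcases Nat.eq_or_lt_of_le hn with rfl | hlt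
      · rw [Function.update_self, Function.update_of_ne (by omega)]
      · rw [Function.update_of_ne (by omega), Function.update_of_ne (by omega)]
        exact hx n hlt)
    refine ⟨z, hz, fun n hn => ?_⟩
    rw [hzx n (by omega), Function.update_of_ne (by omega)]

variable (T)

open Classical in
/-- the coherent sequence with prescribed value at `m` and prescribed labels. -/
noncomputable def seq (m : ℕ) (q : T.Q m) (c : ℕ → ZMod 2) : ∀ n, T.Q n
  | 0 => if h : m = 0 then h ▸ q else 1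
  | n + 1 => if h : m = n + 1 then h ▸ q else T.ι n (seq m q c n) (c n)

theorem seq_self (m : ℕ) (q : T.Q m) (c : ℕ → ZMod 2) : T.seq m q c m = q := by
  cases m <;> simp [seq]

theorem seq_succ {m n : ℕ} (h : m ≤ n) (q : T.Q m) (c : ℕ → ZMod 2) :
    T.seq m q c (n + 1) = T.ι n (T.seq m q c n) (c n) := by
  rw [seq, dif_neg (by omega)]

theorem seq_coh (m : ℕ) (q : T.Q m) (c : ℕ → ZMod 2) : T.Coh m (T.seq m q c) :=
  fun n hn => ⟨c n, T.seq_succ hn q c⟩

/-- the sequences that are eventually trivial. -/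
def evTriv : Subgroup (∀ n, T.Q n) where
  carrier := {x | ∃ m, ∀ n, m ≤ n → x n = 1}
  one_mem' := ⟨0, fun _ _ => rfl⟩
  mul_mem' := by
    rintro x y ⟨m, hm⟩ ⟨k, hk⟩
    exact ⟨max m k, fun n hn => by
      simp [hm n ((le_max_left _ _).trans hn), hk n ((le_max_right _ _).trans hn)]⟩
  inv_mem' := by
    rintro x ⟨m, hm⟩
    exact ⟨m, fun n hn => by simp [hm n hn]⟩

instance : T.evTriv.Normal := ⟨by
  rintro x ⟨m, hm⟩ y
  exact ⟨m, fun n hn => by simp [hm n hn]⟩⟩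

/-- the class of a sequence. -/
def cls (x : ∀ n, T.Q n) : (∀ n, T.Q n) ⧸ T.evTriv := QuotientGroup.mk x

theorem cls_eq {x y : ∀ n, T.Q n} : T.cls x = T.cls y ↔ ∃ m, ∀ n, m ≤ n → x n = y n := by
  rw [cls, cls, QuotientGroup.eq]
  constructor
  · rintro ⟨m, hm⟩
    refine ⟨m, fun n hn => ?_⟩
    have := hm n hn
    simp only [Pi.mul_apply, Pi.inv_apply] at this
    exact (inv_mul_eq_one.1 this)
  · rintro ⟨m, hm⟩
    exact ⟨m, fun n hn => by simp [hm n hn]⟩

/-- the limit group, as a subgroup of the reduced product. -/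
def limSub : Subgroup ((∀ n, T.Q n) ⧸ T.evTriv) where
  carrier := {g | ∃ m x, T.Coh m x ∧ T.cls x = g}
  one_mem' := ⟨0, 1, Coh.one 0, rfl⟩
  mul_mem' := by
    rintro _ _ ⟨m, x, hx, rfl⟩ ⟨k, y, hy, rfl⟩
    exact ⟨max m k, x * y, (hx.mono (le_max_left _ _)).mul (hy.mono (le_max_right _ _)), rfl⟩
  inv_mem' := by
    rintro _ ⟨m, x, hx, rfl⟩
    exact ⟨m, x⁻¹, hx.inv, rfl⟩

/-- the limit group. -/
def Lim : Type := T.limSub

noncomputable instance : Group T.Lim := inferInstanceAs (Group T.limSub)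

/-- `x` represents `g`, coherently from place `m` on. -/
def Rep (m : ℕ) (x : ∀ n, T.Q n) (g : T.Lim) : Prop := T.Coh m x ∧ T.cls x = g.1

variable {T}

theorem exists_rep (g : T.Lim) : ∃ m x, T.Rep m x g := by
  obtain ⟨m, x, hx, h⟩ := g.2
  exact ⟨m, x, hx, h⟩

theorem Rep.mono {m k : ℕ} (h : m ≤ k) {x : ∀ n, T.Q n} {g : T.Lim} (hx : T.Rep m x g) :
    T.Rep k x g := ⟨hx.1.mono h, hx.2⟩

theorem Rep.mul {m : ℕ} {x y : ∀ n, T.Q n} {g h : T.Lim} (hx : T.Rep m x g) (hy : T.Rep m y h) :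
    T.Rep m (x * y) (g * h) := by
  refine ⟨hx.1.mul hy.1, ?_⟩
  have : (g * h).1 = g.1 * h.1 := rfl
  rw [this, ← hx.2, ← hy.2]
  rfl

theorem Rep.inv {m : ℕ} {x : ∀ n, T.Q n} {g : T.Lim} (hx : T.Rep m x g) :
    T.Rep m x⁻¹ g⁻¹ := by
  refine ⟨hx.1.inv, ?_⟩
  have : (g⁻¹).1 = g.1⁻¹ := rfl
  rw [this, ← hx.2]
  rfl

theorem Rep.one (m : ℕ) : T.Rep m 1 1 := ⟨Coh.one m, rfl⟩

theorem Rep.unique {m : ℕ} {x y : ∀ n, T.Q n} {g : T.Lim} (hx : T.Rep m x g)
    (hy : T.Rep m y g) : ∀ n, m ≤ n → x n = y n := by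
  obtain ⟨k, hk⟩ := T.cls_eq.1 (hx.2.trans hy.2.symm)
  intro n hn
  exact hx.1.desc hy.1 k n hn (hk _ (by omega))

theorem Rep.ext {m k : ℕ} {x y : ∀ n, T.Q n} {g h : T.Lim} (hx : T.Rep m x g)
    (hy : T.Rep k y h) (l : ℕ) (hl : ∀ n, l ≤ n → x n = y n) : g = h := by
  apply Subtype.ext
  rw [← hx.2, ← hy.2]
  exact T.cls_eq.2 ⟨l, hl⟩

variable (T)

/-- an element of the limit group. -/
noncomputable def elt (m : ℕ) (q : T.Q m) (c : ℕ → ZMod 2) : T.Lim :=
  ⟨T.cls (T.seq m q c), m, T.seq m q c, T.seq_coh m q c, rfl⟩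

theorem elt_rep (m : ℕ) (q : T.Q m) (c : ℕ → ZMod 2) : T.Rep m (T.seq m q c) (T.elt m q c) :=
  ⟨T.seq_coh m q c, rfl⟩

/-- the open subgroup `G_m`. -/
def Gs (m : ℕ) : Subgroup T.Lim where
  carrier := {g | ∃ x, T.Rep m x g}
  one_mem' := ⟨1, Rep.one m⟩
  mul_mem' := by
    rintro g h ⟨x, hx⟩ ⟨y, hy⟩
    exact ⟨x * y, hx.mul hy⟩
  inv_mem' := by
    rintro g ⟨x, hx⟩
    exact ⟨x⁻¹, hx.inv⟩

/-- the open subgroup `L_m`. -/
def Ls (m : ℕ) : Subgroup T.Lim where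
  carrier := {g | ∃ x, T.Rep m x g ∧ x m = 1}
  one_mem' := ⟨1, Rep.one m, rfl⟩
  mul_mem' := by
    rintro g h ⟨x, hx, hx1⟩ ⟨y, hy, hy1⟩
    exact ⟨x * y, hx.mul hy, by simp [hx1, hy1]⟩
  inv_mem' := by
    rintro g ⟨x, hx, hx1⟩
    exact ⟨x⁻¹, hx.inv, by simp [hx1]⟩

theorem mem_Gs {m : ℕ} {g : T.Lim} : g ∈ T.Gs m ↔ ∃ x, T.Rep m x g := Iff.rfl

theorem mem_Ls {m : ℕ} {g : T.Lim} : g ∈ T.Ls m ↔ ∃ x, T.Rep m x g ∧ x m = 1 := Iff.rfl

theorem Gs_mono {m k : ℕ} (h : m ≤ k) : T.Gs m ≤ T.Gs k := by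
  rintro g ⟨x, hx⟩
  exact ⟨x, hx.mono h⟩

theorem exists_mem_Gs (g : T.Lim) : ∃ m, g ∈ T.Gs m := by
  obtain ⟨m, x, hx⟩ := exists_rep g
  exact ⟨m, x, hx⟩

/-- `L_{m+1} ≤ L_m`. -/
theorem Ls_succ (m : ℕ) : T.Ls (m + 1) ≤ T.Ls m := by
  rintro g ⟨x, hx, hx1⟩
  classical
  refine ⟨Function.update x m 1, ⟨?_, ?_⟩, Function.update_self _ _ _⟩
  · intro n hn
    rcases Nat.eq_or_lt_of_le hn with rfl | hlt
    · refine ⟨0, ?_⟩
      rw [Function.update_self, Function.update_of_ne (by omega), hx1, T.ι_one]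
    · rw [Function.update_of_ne (by omega), Function.update_of_ne (by omega)]
      exact hx.1 n hlt
  · rw [← hx.2]
    exact T.cls_eq.2 ⟨m + 1, fun n hn => Function.update_of_ne (by omega) _ _⟩

theorem Ls_anti : Antitone T.Ls := antitone_nat_of_succ_le T.Ls_succ

theorem Ls_le_Gs (m : ℕ) : T.Ls m ≤ T.Gs m := by
  rintro g ⟨x, hx, _⟩
  exact ⟨x, hx⟩

/-- `L_m` is central in `G_m`. -/
theorem comm {m : ℕ} {g l : T.Lim} (hg : g ∈ T.Gs m) (hl : l ∈ T.Ls m) : g * l = l * g := by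
  obtain ⟨x, hx⟩ := hg
  obtain ⟨y, hy, hy1⟩ := hl
  refine (hx.mul hy).ext (hy.mul hx) m ?_
  intro n hn
  induction n, hn using Nat.le_induction with
  | base => simp [hy1]
  | succ n hn ih =>
    obtain ⟨c, hc⟩ := hx.1 n hn
    obtain ⟨d, hd⟩ := hy.1 n hn
    simp only [Pi.mul_apply] at ih ⊢
    rw [hc, hd, T.ι_mul, T.ι_mul, ih, add_comm c d]

/-- the filter basis of the topology. -/
@[instance_reducible] def fb : GroupFilterBasis T.Lim where
  sets := {U | ∃ m, U = (T.Ls m : Set T.Lim)}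
  nonempty := ⟨_, 0, rfl⟩
  inter_sets := by
    rintro _ _ ⟨m, rfl⟩ ⟨k, rfl⟩
    exact ⟨_, ⟨max m k, rfl⟩, fun g hg =>
      ⟨T.Ls_anti (le_max_left _ _) hg, T.Ls_anti (le_max_right _ _) hg⟩⟩
  one' := by
    rintro _ ⟨m, rfl⟩
    exact one_mem _
  mul' := by
    rintro _ ⟨m, rfl⟩
    refine ⟨_, ⟨m, rfl⟩, ?_⟩
    rintro _ ⟨a, ha, b, hb, rfl⟩
    exact mul_mem ha hb
  inv' := by
    rintro _ ⟨m, rfl⟩
    exact ⟨_, ⟨m, rfl⟩, fun g hg => inv_mem hg⟩
  conj' := by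
    rintro g _ ⟨m, rfl⟩
    obtain ⟨k, hk⟩ := T.exists_mem_Gs g
    refine ⟨_, ⟨max m k, rfl⟩, fun l hl => ?_⟩
    have h1 : g * l * g⁻¹ = l := by
      rw [T.comm (T.Gs_mono (le_max_right m k) hk) hl, mul_inv_cancel_right]
    simp only [Set.mem_preimage, h1]
    exact T.Ls_anti (le_max_left _ _) hl

noncomputable instance : TopologicalSpace T.Lim := T.fb.topology

instance : IsTopologicalGroup T.Lim := T.fb.isTopologicalGroup

theorem nhds_one : (𝓝 (1 : T.Lim)).HasBasis (fun _ : ℕ => True) (fun m => (T.Ls m : Set T.Lim)) := by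
  have h := T.fb.nhds_one_hasBasis
  constructor
  intro U
  rw [h.mem_iff]
  constructor
  · rintro ⟨_, ⟨m, rfl⟩, hm⟩
    exact ⟨m, trivial, hm⟩
  · rintro ⟨m, _, hm⟩
    exact ⟨_, ⟨m, rfl⟩, hm⟩

theorem Ls_open (m : ℕ) : IsOpen (T.Ls m : Set T.Lim) :=
  Subgroup.isOpen_of_mem_nhds _ (g := 1) (T.nhds_one.mem_of_mem (i := m) trivial)

theorem Gs_open (m : ℕ) : IsOpen (T.Gs m : Set T.Lim) :=
  Subgroup.isOpen_of_mem_nhds _ (g := 1)
    (Filter.mem_of_superset (T.nhds_one.mem_of_mem (i := m) trivial) (T.Ls_le_Gs m))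

theorem eq_one_of_mem_Ls {g : T.Lim} (h : ∀ m, g ∈ T.Ls m) : g = 1 := by
  obtain ⟨k, x, hx⟩ := exists_rep g
  refine hx.ext (Rep.one 0) k ?_
  intro n hn
  obtain ⟨y, hy, hy1⟩ := h n
  rw [(hx.mono hn).unique hy n le_rfl, hy1]
  rfl

instance : T2Space T.Lim := IsTopologicalGroup.t2Space_of_one_sep (by
  intro g hg
  by_contra hcon
  push Not at hcon
  exact hg (T.eq_one_of_mem_Ls fun m => hcon _ (T.nhds_one.mem_of_mem (i := m) trivial)))

theorem nhds_basis (g : T.Lim) :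
    (𝓝 g).HasBasis (fun _ : ℕ => True) (fun m => {h | g⁻¹ * h ∈ T.Ls m}) := by
  have h1 : 𝓝 g = Filter.comap (fun h => g⁻¹ * h) (𝓝 1) := by
    have := (Homeomorph.mulLeft g⁻¹).isInducing.nhds_eq_comap g
    simpa using this
  rw [h1]
  exact T.nhds_one.comap _

/-- continuity of the parametrisation of `G_0`. -/
theorem continuous_elt (q : T.Q 0) : Continuous (fun c : ℕ → ZMod 2 => T.elt 0 q c) := by
  rw [continuous_iff_continuousAt]
  intro c
  rw [ContinuousAt, (T.nhds_basis _).tendsto_right_iff]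
  intro m _
  have hopen : ∀ᶠ c' in 𝓝 c, ∀ k ∈ Finset.range m, c' k = c k := by
    rw [Filter.eventually_all_finset]
    intro k _
    have : Tendsto (fun c' : ℕ → ZMod 2 => c' k) (𝓝 c) (𝓝 (c k)) :=
      (continuous_apply k).continuousAt
    exact this (IsOpen.mem_nhds (isOpen_discrete {c k}) rfl)
  filter_upwards [hopen] with c' hc'
  have hagree : ∀ n, n ≤ m → T.seq 0 q c n = T.seq 0 q c' n := by
    intro n
    induction n with
    | zero => intro _; rw [seq_self, seq_self]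
    | succ n ih =>
      intro hn
      rw [T.seq_succ (Nat.zero_le _), T.seq_succ (Nat.zero_le _), ih (by omega),
        hc' n (Finset.mem_range.2 (by omega))]
  refine ⟨(T.seq 0 q c)⁻¹ * T.seq 0 q c',
    ((T.elt_rep 0 q c).inv.mul (T.elt_rep 0 q c')).mono (Nat.zero_le m), ?_⟩
  simp [hagree m le_rfl]

theorem Gs_zero_compact : IsCompact (T.Gs 0 : Set T.Lim) := by
  have h1 : (T.Gs 0 : Set T.Lim) = ⋃ q : T.Q 0, Set.range (fun c : ℕ → ZMod 2 => T.elt 0 q c) := by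
    ext g
    simp only [SetLike.mem_coe, Set.mem_iUnion, Set.mem_range]
    constructor
    · rintro ⟨x, hx⟩
      choose c hc using fun n => hx.1 n (Nat.zero_le n)
      refine ⟨x 0, c, ?_⟩
      refine (T.elt_rep 0 (x 0) c).ext hx 0 ?_
      intro n _
      induction n with
      | zero => rw [seq_self]
      | succ n ih => rw [T.seq_succ (Nat.zero_le _), ih (Nat.zero_le _), hc]
    · rintro ⟨q, c, rfl⟩
      exact ⟨_, T.elt_rep 0 q c⟩
  rw [h1]
  exact isCompact_iUnion fun q => isCompact_range (T.continuous_elt q)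

instance : LocallyCompactSpace T.Lim :=
  T.Gs_zero_compact.locallyCompactSpace_of_mem_nhds_of_group (x := 1)
    ((T.Gs_open 0).mem_nhds (one_mem _))

instance : SecondCountableTopology T.Lim := by
  let B : Set (Set T.Lim) := Set.range (fun z : Σ k : ℕ, T.Q k × ℕ =>
    {h : T.Lim | (T.elt z.1 z.2.1 0)⁻¹ * h ∈ T.Ls z.2.2})
  have hB : TopologicalSpace.IsTopologicalBasis B := by
    refine TopologicalSpace.isTopologicalBasis_of_isOpen_of_nhds ?_ ?_
    · rintro _ ⟨z, rfl⟩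
      exact (T.Ls_open _).preimage (continuous_const.mul continuous_id)
    · intro g U hg hU
      obtain ⟨m, _, hm⟩ := (T.nhds_basis g).mem_iff.1 (hU.mem_nhds hg)
      obtain ⟨k, x, hx⟩ := exists_rep g
      have hx' := hx.mono (le_max_left k m)
      have h2 : (T.elt (max k m) (x (max k m)) 0)⁻¹ * g ∈ T.Ls m := by
        refine T.Ls_anti (le_max_right k m) ⟨_, (T.elt_rep _ _ _).inv.mul hx', ?_⟩
        simp [seq_self]
      refine ⟨_, ⟨⟨max k m, x (max k m), m⟩, rfl⟩, h2, ?_⟩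
      intro h hh
      apply hm
      have h3 := mul_mem (inv_mem h2) hh
      simp only [mul_inv_rev, inv_inv] at h3
      have h4 : g⁻¹ * T.elt (max k m) (x (max k m)) 0 * ((T.elt (max k m) (x (max k m)) 0)⁻¹ * h)
          = g⁻¹ * h := by group
      rwa [h4] at h3
  exact hB.secondCountableTopology (Set.countable_range _)

end TowerData

end Pool.Agent.MP977
end

section

/-!
# MP_977f72_an : the operators `λ(f)`
-/

set_option autoImplicit false
set_option linter.unusedSectionVars false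

open MeasureTheory Topology Filter

namespace Pool.Agent.MP977

variable {G : Type} [Group G] [TopologicalSpace G] [IsTopologicalGroup G]
  [LocallyCompactSpace G] [T2Space G] [SecondCountableTopology G] [MeasurableSpace G]
  [BorelSpace G] (μ : Measure G) [μ.IsHaarMeasure]

/-- The left regular representation `(λ_g ξ)(x) = ξ(g⁻¹ x)` on `L²(G)`. -/
noncomputable def lreg (g : G) (ξ : Lp ℂ 2 μ) : Lp ℂ 2 μ :=
  Lp.compMeasurePreserving (fun x => g⁻¹ * x) (measurePreserving_mul_left μ g⁻¹) ξ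

/-- The operators `λ(f)`, `f ∈ L¹(G)`, on `L²(G)`: `λ(f) ξ = ∫ f(g) λ_g ξ dg`. -/
def convOpsL : Set (Lp ℂ 2 μ →L[ℂ] Lp ℂ 2 μ) :=
  {T | ∃ f : G → ℂ, Integrable f μ ∧ ∀ ξ, T ξ = ∫ g, f g • lreg μ g ξ ∂μ}

/-- The reduced group `C*`-algebra: the norm closure of `λ(L¹(G))` in `B(L²(G))`. -/
def reducedL : Set (Lp ℂ 2 μ →L[ℂ] Lp ℂ 2 μ) := closure (convOpsL μ)

theorem lreg_add (g : G) (ξ η : Lp ℂ 2 μ) : lreg μ g (ξ + η) = lreg μ g ξ + lreg μ g η :=
  map_add _ _ _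

theorem lreg_smul (g : G) (c : ℂ) (ξ : Lp ℂ 2 μ) : lreg μ g (c • ξ) = c • lreg μ g ξ :=
  (Lp.compMeasurePreservingₗ ℂ (fun x => g⁻¹ * x) (measurePreserving_mul_left μ g⁻¹)).map_smul c ξ

theorem norm_lreg (g : G) (ξ : Lp ℂ 2 μ) : ‖lreg μ g ξ‖ = ‖ξ‖ :=
  Lp.norm_compMeasurePreserving _ _

theorem lreg_mul (g h : G) (ξ : Lp ℂ 2 μ) : lreg μ (g * h) ξ = lreg μ g (lreg μ h ξ) := by
  unfold lreg
  rw [← Lp.compMeasurePreserving_comp_apply]
  congr 1
  ext x
  simp [mul_assoc]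

theorem continuous_lreg (ξ : Lp ℂ 2 μ) : Continuous fun g => lreg μ g ξ := by
  have hc : Continuous (fun g : G => (⟨fun x => g⁻¹ * x, by fun_prop⟩ : C(G, G))) := by
    refine ContinuousMap.continuous_of_continuous_uncurry _ ?_
    exact (continuous_fst.inv.mul continuous_snd : Continuous fun z : G × G => z.1⁻¹ * z.2)
  exact (continuous_const (y := ξ)).compMeasurePreservingLp hc
    (fun g => measurePreserving_mul_left μ g⁻¹) (by simp)

/-- `lreg` as a continuous linear map. -/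
noncomputable def lregL (g : G) : Lp ℂ 2 μ →L[ℂ] Lp ℂ 2 μ :=
  (Lp.compMeasurePreservingₗᵢ ℂ (fun x => g⁻¹ * x)
    (measurePreserving_mul_left μ g⁻¹)).toContinuousLinearMap

theorem lregL_apply (g : G) (ξ : Lp ℂ 2 μ) : lregL μ g ξ = lreg μ g ξ := rfl

theorem integrable_smul_lreg {f : G → ℂ} (hf : Integrable f μ) (ξ : Lp ℂ 2 μ) :
    Integrable (fun g => f g • lreg μ g ξ) μ := by
  refine Integrable.mono' (hf.norm.mul_const ‖ξ‖) ?_ (Eventually.of_forall fun g => ?_)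
  · exact hf.1.smul (continuous_lreg μ ξ).aestronglyMeasurable
  · rw [norm_smul, norm_lreg]

theorem norm_integral_smul_lreg (f : G → ℂ) (ξ : Lp ℂ 2 μ) :
    ‖∫ g, f g • lreg μ g ξ ∂μ‖ ≤ (∫ g, ‖f g‖ ∂μ) * ‖ξ‖ := by
  calc ‖∫ g, f g • lreg μ g ξ ∂μ‖ ≤ ∫ g, ‖f g • lreg μ g ξ‖ ∂μ := norm_integral_le_integral_norm _
    _ = (∫ g, ‖f g‖ ∂μ) * ‖ξ‖ := by
      simp_rw [norm_smul, norm_lreg]
      rw [integral_mul_const]

/-- the operator `λ(f)`. -/
noncomputable def conv (f : G → ℂ) (hf : Integrable f μ) : Lp ℂ 2 μ →L[ℂ] Lp ℂ 2 μ :=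
  LinearMap.mkContinuous
    { toFun := fun ξ => ∫ g, f g • lreg μ g ξ ∂μ
      map_add' := fun ξ η => by
        simp only [lreg_add, smul_add]
        exact integral_add (integrable_smul_lreg μ hf ξ) (integrable_smul_lreg μ hf η)
      map_smul' := fun c ξ => by
        simp only [lreg_smul, smul_comm _ c, RingHom.id_apply]
        exact integral_smul c _ }
    (∫ g, ‖f g‖ ∂μ) (fun ξ => norm_integral_smul_lreg μ f ξ)

theorem conv_apply {f : G → ℂ} (hf : Integrable f μ) (ξ : Lp ℂ 2 μ) :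
    conv μ f hf ξ = ∫ g, f g • lreg μ g ξ ∂μ := rfl

theorem conv_mem {f : G → ℂ} (hf : Integrable f μ) : conv μ f hf ∈ convOpsL μ :=
  ⟨f, hf, fun _ => rfl⟩

theorem norm_conv_le {f : G → ℂ} (hf : Integrable f μ) : ‖conv μ f hf‖ ≤ ∫ g, ‖f g‖ ∂μ :=
  LinearMap.mkContinuous_norm_le _ (integral_nonneg fun _ => norm_nonneg _) _

theorem mem_convOps {T : Lp ℂ 2 μ →L[ℂ] Lp ℂ 2 μ} (hT : T ∈ convOpsL μ) :
    ∃ f, ∃ hf : Integrable f μ, T = conv μ f hf := by
  obtain ⟨f, hf, h⟩ := hT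
  exact ⟨f, hf, by ext1 ξ; exact h ξ⟩

/-- `λ(f) λ(f') = λ(f * f')`. -/
theorem conv_mul_conv {f f' : G → ℂ} (hf : Integrable f μ) (hf' : Integrable f' μ) :
    conv μ f hf * conv μ f' hf' ∈ convOpsL μ := by
  -- the convolution
  have hprod : Integrable (fun z : G × G => f z.1 * f' z.2) (μ.prod μ) := hf.mul_prod hf'
  have hk : Integrable (fun z : G × G => f z.1 * f' (z.1⁻¹ * z.2)) (μ.prod μ) :=
    (measurePreserving_prod_inv_mul μ μ).integrable_comp_of_integrable hprod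
  have hk' : Integrable (fun z : G × G => f z.2 * f' (z.2⁻¹ * z.1)) (μ.prod μ) := hk.swap
  have hh : Integrable (fun z : G => ∫ x, f x * f' (x⁻¹ * z) ∂μ) μ := hk'.integral_prod_left
  refine ⟨_, hh, fun ξ => ?_⟩
  have e1 : (conv μ f hf * conv μ f' hf') ξ =
      ∫ x, ∫ y, (f x * f' y) • lreg μ (x * y) ξ ∂μ ∂μ := by
    change conv μ f hf (conv μ f' hf' ξ) = _
    rw [conv_apply]
    congr 1
    ext1 x
    rw [conv_apply, ← lregL_apply, ← ContinuousLinearMap.integral_comp_comm _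
      (integrable_smul_lreg μ hf' ξ), ← integral_smul]
    congr 1
    ext1 y
    rw [map_smul, lregL_apply, smul_smul, lreg_mul]
  have e2 : ∀ x, ∫ y, (f x * f' y) • lreg μ (x * y) ξ ∂μ =
      ∫ z, (f x * f' (x⁻¹ * z)) • lreg μ z ξ ∂μ := by
    intro x
    rw [← integral_mul_left_eq_self (fun z => (f x * f' (x⁻¹ * z)) • lreg μ z ξ) x]
    simp
  rw [e1]
  simp_rw [e2]
  rw [integral_integral_swap]
  · congr 1
    ext1 z
    rw [← integral_smul_const]
  · refine Integrable.mono' (hk.norm.mul_const ‖ξ‖) ?_ (Eventually.of_forall fun z => ?_)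
    · exact hk.1.smul ((continuous_lreg μ ξ).comp continuous_snd).aestronglyMeasurable
    · simp only [Function.uncurry]
      rw [norm_smul, norm_lreg]

theorem mul_mem_reduced {S T : Lp ℂ 2 μ →L[ℂ] Lp ℂ 2 μ} (hS : S ∈ reducedL μ)
    (hT : T ∈ reducedL μ) : S * T ∈ reducedL μ := by
  unfold reducedL at *
  refine map_mem_closure₂ continuous_mul hS hT ?_
  intro a ha b hb
  obtain ⟨f, hf, rfl⟩ := mem_convOps μ ha
  obtain ⟨f', hf', rfl⟩ := mem_convOps μ hb
  exact conv_mul_conv μ hf hf'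

theorem add_mem_reduced {S T : Lp ℂ 2 μ →L[ℂ] Lp ℂ 2 μ} (hS : S ∈ reducedL μ)
    (hT : T ∈ reducedL μ) : S + T ∈ reducedL μ := by
  unfold reducedL at *
  refine map_mem_closure₂ continuous_add hS hT ?_
  rintro a ⟨f, hf, hfa⟩ b ⟨f', hf', hfb⟩
  refine ⟨f + f', hf.add hf', fun ξ => ?_⟩
  rw [add_apply, hfa, hfb, ← integral_add (integrable_smul_lreg μ hf ξ)
    (integrable_smul_lreg μ hf' ξ)]
  congr 1
  ext1 g
  rw [Pi.add_apply, add_smul]

theorem smul_mem_reduced (c : ℂ) {S : Lp ℂ 2 μ →L[ℂ] Lp ℂ 2 μ} (hS : S ∈ reducedL μ) :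
    c • S ∈ reducedL μ := by
  unfold reducedL at *
  refine map_mem_closure (continuous_const_smul c) hS ?_
  rintro a ⟨f, hf, hfa⟩
  refine ⟨fun g => c * f g, hf.const_mul c, fun ξ => ?_⟩
  rw [smul_apply, hfa, ← integral_smul]
  congr 1
  ext1 g
  rw [smul_smul]

theorem zero_mem_reduced : (0 : Lp ℂ 2 μ →L[ℂ] Lp ℂ 2 μ) ∈ reducedL μ :=
  subset_closure ⟨0, integrable_zero _ _ _, fun ξ => by simp⟩

end Pool.Agent.MP977
end
end
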