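import Pool.Agent.Lib.MP_977f72_an.h30.Conv

/-!
# MP_977f72_an : existence of the Furstenberg boundary
-/

set_option autoImplicit false
set_option linter.unusedSectionVars false
set_option linter.style.haveILetI false

open MeasureTheory Topology Filter

namespace Pool.Agent.MP977

section Product

variable {G : Type} [Group G] {I : Type} {X : I → Type} [∀ i, TopologicalSpace (X i)]
  [∀ i, CompactSpace (X i)] [∀ i, T2Space (X i)] [∀ i, MulAction G (X i)]
  [∀ i, ContinuousConstSMul G (X i)]

/-- the coordinate projections. -/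
def prj (i : I) : C(∀ i, X i, X i) := ⟨fun y => y i, continuous_apply i⟩

/-- a state whose marginals are Dirac states is a Dirac state. -/
theorem eq_dirac_of_marginals {ν : C(∀ i, X i, ℝ) → ℝ} (hν : ν ∈ States (∀ i, X i))
    (c : ∀ i, X i) (hc : ∀ i, push (prj i) ν = dirac (c i)) : ν = dirac c := by
  have hcontν : Continuous ν := by
    refine continuous_iff_continuousAt.2 fun f => ?_
    rw [ContinuousAt, tendsto_iff_norm_sub_tendsto_zero]
    have h1 : Tendsto (fun g : C(∀ i, X i, ℝ) => ‖g - f‖) (𝓝 f) (𝓝 0) := by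
      have : Continuous fun g : C(∀ i, X i, ℝ) => ‖g - f‖ := by fun_prop
      simpa using this.tendsto f
    refine squeeze_zero (fun _ => norm_nonneg _) (fun g => ?_) h1
    rw [← states_sub hν, Real.norm_eq_abs]
    exact states_le_norm hν _
  let A : Subalgebra ℝ C(∀ i, X i, ℝ) :=
    { carrier := {h | ∀ k, ν (h * k) = h c * ν k}
      mul_mem' := by
        intro a b ha hb k
        rw [mul_assoc, ha, hb, ContinuousMap.mul_apply, mul_assoc]
      add_mem' := by
        intro a b ha hb k
        rw [add_mul, hν.1, ha, hb, ContinuousMap.add_apply, add_mul]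
      algebraMap_mem' := by
        intro r k
        have h1 : (algebraMap ℝ C(∀ i, X i, ℝ)) r * k = r • k := by
          rw [Algebra.smul_def]
        rw [h1, hν.2.1]
        rfl }
  have hsep : A.SeparatesPoints := by
    intro x y hxy
    obtain ⟨i, hi⟩ := Function.ne_iff.1 hxy
    obtain ⟨f, hf0, hf1, -⟩ := exists_continuous_zero_one_of_isClosed
      (isClosed_singleton (x := x i)) (isClosed_singleton (x := y i))
      (Set.disjoint_singleton.2 hi)
    refine ⟨fun z => f (z i), ⟨f.comp (prj i), ?_, rfl⟩, ?_⟩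
    · intro k
      -- `ν (|f ∘ prj - f c|) = 0`
      let h : C(∀ i, X i, ℝ) := f.comp (prj i) - f (c i) • 1
      have h1 : ∀ z, |(h * k) z| ≤ (‖k‖ • |h|) z := by
        intro z
        have hkz : |k z| ≤ ‖k‖ := k.norm_coe_le_norm z
        rw [ContinuousMap.mul_apply, abs_mul, ContinuousMap.smul_apply, smul_eq_mul, mul_comm]
        have : |h| z = |h z| := rfl
        rw [this]
        gcongr
      have h2 : ν |h| = 0 := by
        have h3 : |h| = (|f - f (c i) • 1| : C(X i, ℝ)).comp (prj i) := by
          ext z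
          rfl
        rw [h3]
        have h4 := congrFun (hc i) (|f - f (c i) • 1| : C(X i, ℝ))
        have h5 : push (prj i) ν (|f - f (c i) • 1| : C(X i, ℝ)) =
          ν ((|f - f (c i) • 1| : C(X i, ℝ)).comp (prj i)) := rfl
        rw [← h5, h4]
        change |f (c i) - f (c i) * 1| = 0
        simp
      have h6 : |ν (h * k)| ≤ 0 := by
        have := states_abs_le hν h1
        rwa [hν.2.1, h2, mul_zero] at this
      have h7 : ν (h * k) = 0 := abs_nonpos_iff.1 h6
      have h8 : h * k = f.comp (prj i) * k - f (c i) • k := by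
        simp only [h, sub_mul, smul_mul_assoc, one_mul]
      rw [h8, states_sub hν, hν.2.1] at h7
      have h9 : (f.comp (prj i)) c = f (c i) := rfl
      rw [h9]
      linarith
    · have e1 : f (x i) = 0 := by simpa using hf0 (Set.mem_singleton _)
      have e2 : f (y i) = 1 := by simpa using hf1 (Set.mem_singleton _)
      simp only [e1, e2]
      norm_num
  have htop := ContinuousMap.subalgebra_topologicalClosure_eq_top_of_separatesPoints A hsep
  funext h
  have hcl : h ∈ closure (A : Set C(∀ i, X i, ℝ)) := by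
    have : h ∈ A.topologicalClosure := by rw [htop]; trivial
    exact this
  have hclosed : IsClosed {h : C(∀ i, X i, ℝ) | ν (h * 1) = h c * ν 1} := by
    refine isClosed_eq (hcontν.comp (by fun_prop)) ?_
    exact (continuous_eval_const c).mul continuous_const
  have := closure_minimal (fun a (ha : a ∈ A) => ha 1) hclosed hcl
  simp only [mul_one, hν.2.2.2] at this
  exact this

/-- products of strongly proximal spaces are strongly proximal. -/
theorem spf_pi (h : ∀ i, SPf G (X i)) : SPf G (∀ i, X i) := by
  intro Λ hΛ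
  let a : G → (C(∀ i, X i, ℝ) → ℝ) → (C(∀ i, X i, ℝ) → ℝ) := fun g => push (sm g)
  have hacont : ∀ g, Continuous (a g) := fun g => continuous_push _
  let K := closure (Set.range fun g : G => push (sm g) Λ)
  have hKS : K ⊆ States (∀ i, X i) := closure_minimal
    (by rintro _ ⟨g, rfl⟩; exact push_mem _ hΛ) isClosed_states
  have hKc : IsCompact K := isCompact_states.of_isClosed_subset isClosed_closure hKS
  have hKinv : ∀ g, ∀ y ∈ K, a g y ∈ K := by
    intro g y hy
    refine map_mem_closure (hacont g) hy ?_
    rintro _ ⟨g', rfl⟩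
    exact ⟨g * g', (push_sm_mul g g' Λ).symm⟩
  obtain ⟨M, hMK, hMcl, ⟨ν, hν⟩, hMinv, hMmin⟩ := exists_min a hKc isClosed_closure
    ⟨_, subset_closure ⟨1, rfl⟩⟩ hKinv
  have hMc : IsCompact M := hKc.of_isClosed_subset hMcl hMK
  -- equivariance of the projections
  have heq : ∀ (i : I) (g : G) (Λ' : C(∀ i, X i, ℝ) → ℝ),
      push (prj i) (push (sm g) Λ') = push (sm g) (push (prj i) Λ') := fun i g Λ' => rfl
  have hmarg : ∀ i, ∃ x : X i, push (prj i) ν = dirac x := by
    intro i
    let D : Set (C(∀ i, X i, ℝ) → ℝ) := M ∩ push (prj i) ⁻¹' (Set.range (dirac : X i → _))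
    have hDcl : IsClosed D :=
      hMcl.inter ((isCompact_range continuous_dirac).isClosed.preimage (continuous_push _))
    have hDinv : ∀ g, ∀ y ∈ D, a g y ∈ D := by
      rintro g y ⟨hy, x, hx⟩
      refine ⟨hMinv g y hy, g • x, ?_⟩
      change dirac (g • x) = push (prj i) (push (sm g) y)
      rw [heq, ← hx]
      rfl
    have hDne : D.Nonempty := by
      obtain ⟨x, hx⟩ := h i (push (prj i) ν) (push_mem _ (hKS (hMK hν)))
      have h1 : IsClosed (push (prj i) '' M) := (hMc.image (continuous_push _)).isClosed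
      have h2 : dirac x ∈ push (prj i) '' M := by
        refine closure_minimal ?_ h1 hx
        rintro _ ⟨g, rfl⟩
        exact ⟨push (sm g) ν, hMinv g ν hν, rfl⟩
      obtain ⟨y, hy, hyx⟩ := h2
      exact ⟨y, hy, x, hyx.symm⟩
    have hDM := hMmin D Set.inter_subset_left hDcl hDne hDinv
    have : ν ∈ D := by rw [hDM]; exact hν
    obtain ⟨x, hx⟩ := this.2
    exact ⟨x, hx.symm⟩
  choose c hc using hmarg
  have h3 := eq_dirac_of_marginals (hKS (hMK hν)) c hc
  exact ⟨c, by rw [← h3]; exact hMK hν⟩

end Product

section Sub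

variable {G : Type} [Group G] {Y : Type} [TopologicalSpace Y] [CompactSpace Y] [T2Space Y]
  [MulAction G Y]

/-- the action on an invariant subset. -/
@[reducible] def subAct (M : Set Y) (hM : ∀ g : G, ∀ y ∈ M, g • y ∈ M) : MulAction G M where
  smul g y := ⟨g • y.1, hM g y.1 y.2⟩
  one_smul y := Subtype.ext (one_smul G y.1)
  mul_smul g h y := Subtype.ext (mul_smul g h y.1)

theorem subAct_cont [TopologicalSpace G] [ContinuousSMul G Y] (M : Set Y)
    (hM : ∀ g : G, ∀ y ∈ M, g • y ∈ M) :
    letI := subAct M hM
    ContinuousSMul G M := by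
  letI := subAct M hM
  refine ⟨?_⟩
  have h1 : Continuous fun p : G × M => p.1 • p.2.1 :=
    continuous_fst.smul (continuous_subtype_val.comp continuous_snd)
  exact h1.subtype_mk _

/-- closed invariant subsets of strongly proximal spaces are strongly proximal. -/
theorem spf_sub [ContinuousConstSMul G Y] (h : SPf G Y) (M : Set Y) (hMcl : IsClosed M)
    (hM : ∀ g : G, ∀ y ∈ M, g • y ∈ M) :
    letI := subAct M hM
    ∀ (_ : ContinuousConstSMul G M), SPf G M := by
  letI := subAct M hM
  intro hcont Λ hΛ
  let i : C(M, Y) := ⟨Subtype.val, continuous_subtype_val⟩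
  obtain ⟨c, hc⟩ := h (push i Λ) (push_mem i hΛ)
  -- equivariance
  have heq : ∀ g : G, push (sm g) (push i Λ) = push i (push (sm g) Λ) := fun g => rfl
  have hcM : c ∈ M := by
    by_contra hcM
    obtain ⟨f, hf0, hf1, -⟩ := exists_continuous_zero_one_of_isClosed hMcl
      (isClosed_singleton (x := c)) (Set.disjoint_singleton_right.2 hcM)
    obtain ⟨_, ⟨g, rfl⟩, hg⟩ := mem_closure_fun_iff.1 hc {f} 1 one_pos
    have h1 := hg f (Finset.mem_singleton_self f)
    have h2 : push (sm g) (push i Λ) f = 0 := by
      have h3 : (f.comp (sm g)).comp i = 0 := by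
        ext x
        have : (sm g x : M).1 ∈ M := (sm g x).2
        exact hf0 this
      change Λ ((f.comp (sm g)).comp i) = 0
      rw [h3]
      have := hΛ.2.1 0 0
      simpa using this
    have h4 : dirac c f = 1 := hf1 (Set.mem_singleton c)
    simp only [h2, h4] at h1
    norm_num at h1
  refine ⟨⟨c, hcM⟩, mem_closure_fun_iff.2 fun F ε hε => ?_⟩
  -- extend the test functions
  have hext : ∀ f : C(M, ℝ), ∃ f' : C(Y, ℝ), f'.comp i = f := by
    intro f
    obtain ⟨f', hf'⟩ := ContinuousMap.exists_restrict_eq hMcl f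
    exact ⟨f', hf'⟩
  choose e he using hext
  classical
  obtain ⟨_, ⟨g, rfl⟩, hg⟩ := mem_closure_fun_iff.1 hc (F.image e) ε hε
  refine ⟨_, ⟨g, rfl⟩, fun f hf => ?_⟩
  have h1 : |push (sm g) (push i Λ) (e f) - dirac c (e f)| < ε :=
    hg (e f) (Finset.mem_image_of_mem e hf)
  change |push (sm g) Λ f - f ⟨c, hcM⟩| < ε
  rw [heq] at h1
  have h2 : push i (push (sm g) Λ) (e f) = push (sm g) Λ f := by
    change push (sm g) Λ ((e f).comp i) = _
    rw [he]
  have h3 : dirac c (e f) = f ⟨c, hcM⟩ := by
    conv_rhs => rw [← he f]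
    rfl
  rw [h2, h3] at h1
  exact h1

end Sub

section Univ

variable (G : Type) [Group G] [TopologicalSpace G]

/-- bundled boundaries. -/
structure Bd : Type 1 where
  X : Type
  top : TopologicalSpace X
  cpt : CompactSpace X
  t2 : T2Space X
  act : MulAction G X
  cts : ContinuousSMul G X
  bd : IsGBoundary G X

attribute [instance] Bd.top Bd.cpt Bd.t2 Bd.act Bd.cts

/-- the functions on `G` coming from boundaries. -/
def Idx : Type := {φ : G → ℝ // ∃ (D : Bd G) (x : D.X) (f : C(D.X, ℝ)), ∀ g, φ g = f (g • x)}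

variable {G}

/-- chosen boundary. -/
noncomputable def Idx.D (i : Idx G) : Bd G := Classical.choose i.2
/-- chosen point. -/
noncomputable def Idx.x (i : Idx G) : i.D.X := Classical.choose (Classical.choose_spec i.2)
/-- chosen function. -/
noncomputable def Idx.f (i : Idx G) : C(i.D.X, ℝ) :=
  Classical.choose (Classical.choose_spec (Classical.choose_spec i.2))

theorem Idx.spec (i : Idx G) (g : G) : i.1 g = i.f (g • i.x) :=
  Classical.choose_spec (Classical.choose_spec (Classical.choose_spec i.2)) g

variable (G)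

/-- the product of all boundaries. -/
abbrev BigProd : Type := ∀ i : Idx G, i.D.X

/-- The Furstenberg boundary exists. -/
theorem exists_furstenberg : ∃ (B : Type) (_ : TopologicalSpace B) (_ : CompactSpace B)
    (_ : T2Space B) (_ : MulAction G B) (_ : ContinuousSMul G B), IsFurstenbergBoundary G B := by
  have hsp : SPf G (BigProd G) := spf_pi fun i => spf_of_stronglyProximal G i.D.bd.2.2
  obtain ⟨M, -, hMcl, ⟨m0, hm0⟩, hMinv, hMmin⟩ := exists_min (Y := BigProd G)
    (fun (g : G) y => g • y) isCompact_univ isClosed_univ ⟨fun i => i.x, trivial⟩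
    (fun _ _ _ => trivial)
  letI : MulAction G M := subAct M hMinv
  haveI : ContinuousSMul G M := subAct_cont M hMinv
  haveI hMc : CompactSpace M := isCompact_iff_compactSpace.1 hMcl.isCompact
  refine ⟨M, inferInstance, inferInstance, inferInstance, inferInstance, inferInstance, ?_, ?_⟩
  · refine ⟨⟨⟨m0, hm0⟩⟩, ?_, ?_⟩
    · intro x
      have h1 : closure (Set.range fun g : G => g • x.1) = M := by
        refine hMmin _ (closure_minimal ?_ hMcl) isClosed_closure ⟨_, subset_closure ⟨1, rfl⟩⟩ ?_
        · rintro _ ⟨g, rfl⟩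
          exact hMinv g _ x.2
        · intro g y hy
          refine map_mem_closure (continuous_const_smul g) hy ?_
          rintro _ ⟨h, rfl⟩
          exact ⟨g * h, mul_smul g h x.1⟩
      intro y
      rw [closure_subtype]
      have h2 : (Subtype.val '' (MulAction.orbit G x) : Set (BigProd G)) =
          Set.range fun g : G => g • x.1 := by
        ext w
        constructor
        · rintro ⟨_, ⟨g, rfl⟩, rfl⟩
          exact ⟨g, rfl⟩
        · rintro ⟨g, rfl⟩
          exact ⟨g • x, ⟨g, rfl⟩, rfl⟩
      rw [h2, h1]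
      exact y.2
    · exact stronglyProximal_of_spf G (spf_sub hsp M hMcl hMinv inferInstance)
  · intro X _ _ _ _ _ hX
    have hX' := hX
    obtain ⟨⟨x0⟩, hXmin, -⟩ := hX'
    let idx : C(X, ℝ) → Idx G := fun f =>
      ⟨fun g => f (g • x0), ⟨X, inferInstance, inferInstance, inferInstance, inferInstance,
        inferInstance, hX⟩, x0, f, fun g => rfl⟩
    let R : Set (BigProd G × X) :=
      {p | ∀ (f : C(X, ℝ)) (h : G), (idx f).f (h • p.1 (idx f)) = f (h • p.2)}
    have hRcl : IsClosed R := by
      have h1 : R = ⋂ f : C(X, ℝ), ⋂ h : G,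
          {p | (idx f).f (h • p.1 (idx f)) = f (h • p.2)} := by
        ext p; simp [R]
      rw [h1]
      refine isClosed_iInter fun f => isClosed_iInter fun h => isClosed_eq ?_ ?_
      · exact (idx f).f.continuous.comp ((continuous_const_smul h).comp
          ((continuous_apply (idx f)).comp continuous_fst))
      · exact f.continuous.comp ((continuous_const_smul h).comp continuous_snd)
    have hRinv : ∀ (g : G) (y : BigProd G) (x : X), (y, x) ∈ R → (g • y, g • x) ∈ R := by
      intro g y x hyx f h
      have := hyx f (h * g)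
      rw [mul_smul, mul_smul] at this
      exact this
    have hRuniq : ∀ (y : BigProd G) (x x' : X), (y, x) ∈ R → (y, x') ∈ R → x = x' := by
      intro y x x' h h'
      by_contra hne
      obtain ⟨f, hf0, hf1, -⟩ := exists_continuous_zero_one_of_isClosed
        (isClosed_singleton (x := x)) (isClosed_singleton (x := x'))
        (Set.disjoint_singleton.2 hne)
      have e1 := h f 1
      have e2 := h' f 1
      simp only [one_smul] at e1 e2
      rw [e1] at e2
      have e3 : f x = 0 := by simpa using hf0 (Set.mem_singleton _)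
      have e4 : f x' = 1 := by simpa using hf1 (Set.mem_singleton _)
      rw [e3, e4] at e2
      norm_num at e2
    have hR0 : ((fun i => i.x : BigProd G), x0) ∈ R := by
      intro f h
      exact ((idx f).spec h).symm
    -- proximality gives a point of `R` over `M`
    have hRM : ∃ y ∈ M, ∃ x, (y, x) ∈ R := by
      set p0 : BigProd G := fun i => i.x with hp0
      let Λ : C(BigProd G, ℝ) → ℝ := fun f => (f p0 + f m0) / 2
      have hΛ : Λ ∈ States (BigProd G) := by
        refine ⟨fun f g => ?_, fun c f => ?_, fun f hf => ?_, ?_⟩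
        · simp only [Λ, ContinuousMap.add_apply]; ring
        · simp only [Λ, ContinuousMap.smul_apply, smul_eq_mul]; ring
        · have h1 := hf p0
          have h2 := hf m0
          simp only [Λ]; linarith
        · simp only [Λ, ContinuousMap.one_apply]; norm_num
      obtain ⟨c, hc⟩ := hsp Λ hΛ
      have hprox : ∀ O ∈ 𝓝 c, ∃ g : G, g • p0 ∈ O ∧ g • m0 ∈ O := by
        intro O hO
        obtain ⟨O', hO'O, hO'o, hcO'⟩ := mem_nhds_iff.1 hO
        obtain ⟨f, hf0, hf1, hf01⟩ := exists_continuous_zero_one_of_isClosed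
          (isClosed_singleton (x := c)) hO'o.isClosed_compl
          (Set.disjoint_singleton_left.2 (by simpa using hcO'))
        obtain ⟨_, ⟨g, rfl⟩, hg⟩ := mem_closure_fun_iff.1 hc {f} (1 / 2) (by norm_num)
        have h1 := hg f (Finset.mem_singleton_self f)
        have h2 : dirac c f = 0 := hf0 (Set.mem_singleton c)
        have h3 : (fun g : G => push (sm g) Λ) g f = (f (g • p0) + f (g • m0)) / 2 := rfl
        rw [h2, h3, sub_zero] at h1
        have h4 := (hf01 (g • p0)).1
        have h5 := (hf01 (g • m0)).1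
        have h6 := (abs_lt.1 h1).2
        refine ⟨g, hO'O ?_, hO'O ?_⟩
        · by_contra hcon
          have h7 : f (g • p0) = 1 := hf1 hcon
          linarith
        · by_contra hcon
          have h7 : f (g • m0) = 1 := hf1 hcon
          linarith
      have hcM : c ∈ M := by
        rw [← hMcl.closure_eq, mem_closure_iff_nhds]
        intro O hO
        obtain ⟨g, -, hg⟩ := hprox O hO
        exact ⟨_, hg, hMinv g _ hm0⟩
      refine ⟨c, hcM, ?_⟩
      -- find the second coordinate by compactness
      have h1 : c ∈ Prod.fst '' (closure (Set.range fun g : G => (g • p0, g • x0))) := by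
        have h2 : IsClosed (Prod.fst '' (closure (Set.range fun g : G => (g • p0, g • x0)))) :=
          isClosedMap_fst_of_compactSpace _ isClosed_closure
        rw [← h2.closure_eq, mem_closure_iff_nhds]
        intro O hO
        obtain ⟨g, hg, -⟩ := hprox O hO
        exact ⟨_, hg, (g • p0, g • x0), subset_closure ⟨g, rfl⟩, rfl⟩
      obtain ⟨⟨c', x⟩, hx, rfl⟩ := h1
      refine ⟨x, closure_minimal ?_ hRcl hx⟩
      rintro _ ⟨g, rfl⟩
      exact hRinv g _ _ hR0
    have hex : ∀ y ∈ M, ∃ x, (y, x) ∈ R := by
      have h1 : M ∩ Prod.fst '' R = M := by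
        refine hMmin _ Set.inter_subset_left ?_ ?_ ?_
        · exact hMcl.inter (isClosedMap_fst_of_compactSpace _ hRcl)
        · obtain ⟨y, hy, x, hx⟩ := hRM
          exact ⟨y, hy, (y, x), hx, rfl⟩
        · rintro g _ ⟨hy, ⟨y, x⟩, hx, rfl⟩
          exact ⟨hMinv g _ hy, (g • y, g • x), hRinv g y x hx, rfl⟩
      intro y hy
      rw [← h1] at hy
      obtain ⟨-, ⟨y', x⟩, hx, rfl⟩ := hy
      exact ⟨x, hx⟩
    choose ψ hψ using hex
    have hcontψ : Continuous (fun y : M => ψ y.1 y.2) := by
      rw [continuous_iff_isClosed]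
      intro C hC
      have h1 : (fun y : M => ψ y.1 y.2) ⁻¹' C =
          Subtype.val ⁻¹' (Prod.fst '' (R ∩ Prod.snd ⁻¹' C)) := by
        ext y
        constructor
        · intro hy
          exact ⟨(y.1, ψ y.1 y.2), ⟨hψ y.1 y.2, hy⟩, rfl⟩
        · rintro ⟨⟨y', x⟩, ⟨hx, hxC⟩, rfl⟩
          have := hRuniq _ _ _ (hψ _ y.2) hx
          change ψ _ _ ∈ C
          rw [this]
          exact hxC
      rw [h1]
      exact (isClosedMap_fst_of_compactSpace _
        (hRcl.inter (hC.preimage continuous_snd))).preimage continuous_subtype_val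
    have hequi : ∀ (g : G) (y : M), ψ (g • y).1 (g • y).2 = g • ψ y.1 y.2 := by
      intro g y
      exact hRuniq _ _ _ (hψ _ (g • y).2) (hRinv g _ _ (hψ y.1 y.2))
    refine ⟨fun y => ψ y.1 y.2, hcontψ, ?_, hequi⟩
    intro x
    have h1 : IsClosed (Set.range fun y : M => ψ y.1 y.2) := (isCompact_range hcontψ).isClosed
    have h2 : closure (MulAction.orbit G (ψ m0 hm0)) ⊆ Set.range fun y : M => ψ y.1 y.2 := by
      refine closure_minimal ?_ h1
      rintro _ ⟨g, rfl⟩
      exact ⟨g • ⟨m0, hm0⟩, hequi g ⟨m0, hm0⟩⟩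
    exact h2 (hXmin _ x)

end Univ

end Pool.Agent.MP977
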