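import Pool.Agent.Lib.MP_977f72_an.h30.Step
import Pool.Agent.Lib.MP_977f72_an.h30.Conv
import Pool.Agent.Lib.MP_977f72_an.h30.Bdry

section

/-!
# MP_977f72_an : the stages of the tower
-/

set_option autoImplicit false

namespace Pool.Agent.MP977

open Monoid

section Emb

variable {Q : Type} [Group Q]

/-- the embedding `Q × ℤ/2 → Ext Q`. -/
noncomputable def emb (q : Q) (c : ZMod 2) : Ext Q := ⟨Finsupp.single (v0 Q) c, Coprod.inl q⟩

theorem emb_mul (q q' : Q) (c c' : ZMod 2) :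
    emb q c * emb q' c' = emb (q * q') (c + c') := by
  ext1
  · simp [emb, act_single, inl_smul_v0]
  · simp [emb]

theorem emb_inj {q q' : Q} {c c' : ZMod 2} (h : emb q c = emb q' c') : q = q' ∧ c = c' := by
  rw [Ext.ext_iff] at h
  simp only [emb] at h
  refine ⟨Coprod.inl_injective h.2, ?_⟩
  have := congrArg (fun f => f (v0 Q)) h.1
  simpa using this

/-- the direction map on `Ext Q`. -/
noncomputable def dirE (x : Ext Q) : Q := dir Q x.p

theorem dirE_one : dirE (1 : Ext Q) = 1 := dir_one Q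

theorem dirE_emb_mul (q : Q) (c : ZMod 2) (x : Ext Q) : dirE (emb q c * x) = q * dirE x := by
  simp [dirE, emb, dir_inl_mul]

/-- the generators of the free group inside `Ext Q`. -/
noncomputable def genE (i : ℕ) : Ext Q := ⟨0, gen Q i⟩

theorem dirE_gen_mul {i j : ℕ} {x : Ext Q} (hi : dirE (genE i * x) ≠ 1)
    (hj : dirE (genE j * x) ≠ 1) : i = j := dir_gen_mul Q hi hj

end Emb

/-- A stage of the tower. -/
structure Stage : Type 1 where
  Q : Type
  grp : Group Q
  cnt : Countable Q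
  H : Subgroup Q
  sgn : Q → ZMod 2
  F : Set Q
  lf : LocFin H
  sgn_mul : ∀ h ∈ H, ∀ h' ∈ H, sgn (h * h') = sgn h + sgn h'
  one_F : 1 ∈ F
  cond : ∀ q : Q, ∃ f ∈ F, q⁻¹ * f * q ∈ H ∧ sgn (q⁻¹ * f * q) = 1

attribute [instance] Stage.grp Stage.cnt

namespace Stage

variable (S : Stage)

theorem sgn_one : S.sgn 1 = 0 := by
  have := S.sgn_mul 1 (one_mem _) 1 (one_mem _)
  rw [mul_one] at this
  have h2 : S.sgn 1 + 0 = S.sgn 1 + S.sgn 1 := by rw [add_zero]; exact this
  exact (add_left_cancel h2).symm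

/-- the subgroup of the next stage. -/
noncomputable def nextH : Subgroup (Ext S.Q) where
  carrier := {x | x.a (v0 S.Q) = 0 ∧ ∃ h ∈ S.H, x.p = Coprod.inl h}
  one_mem' := ⟨by simp, 1, one_mem _, by simp⟩
  mul_mem' := by
    rintro x y ⟨hx, h, hh, hxp⟩ ⟨hy, h', hh', hyp⟩
    refine ⟨?_, h * h', mul_mem hh hh', ?_⟩
    · simp only [mul_a, Finsupp.add_apply]
      rw [hxp, act_inl_v0, hx, hy, add_zero]
    · simp [hxp, hyp]
  inv_mem' := by
    rintro x ⟨hx, h, hh, hxp⟩
    refine ⟨?_, h⁻¹, inv_mem hh, ?_⟩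
    · simp only [inv_a, Finsupp.neg_apply]
      rw [hxp, ← map_inv, act_inl_v0, hx, neg_zero]
    · simp [hxp]

theorem mem_nextH {x : Ext S.Q} :
    x ∈ S.nextH ↔ x.a (v0 S.Q) = 0 ∧ ∃ h ∈ S.H, x.p = Coprod.inl h := Iff.rfl

/-- the sign on the next stage. -/
noncomputable def nextSgn (x : Ext S.Q) : ZMod 2 := par x.a + S.sgn (Coprod.fst x.p)

/-- the distinguished set of the next stage. -/
def nextF : Set (Ext S.Q) := {x | ∃ f ∈ S.F, ∃ c, x = emb f c}

theorem nextSgn_mul : ∀ h ∈ S.nextH, ∀ h' ∈ S.nextH,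
    S.nextSgn (h * h') = S.nextSgn h + S.nextSgn h' := by
  rintro x ⟨hx, h, hh, hxp⟩ y ⟨hy, h', hh', hyp⟩
  simp only [nextSgn, mul_a, mul_p, par_add, par_act, map_mul, hxp, hyp, Coprod.fst_apply_inl]
  rw [S.sgn_mul h hh h' hh']
  ring

theorem nextCond (x : Ext S.Q) : ∃ f ∈ S.nextF, x⁻¹ * f * x ∈ S.nextH ∧
    S.nextSgn (x⁻¹ * f * x) = 1 := by
  by_cases hp : x.p • v0 S.Q = v0 S.Q
  · obtain ⟨q, hq⟩ := (smul_v0 S.Q _).1 hp
    obtain ⟨f, hf, hfH, hfs⟩ := S.cond q
    have e1 : (x⁻¹ * emb f 0 * x).p = Coprod.inl (q⁻¹ * f * q) := by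
      simp [emb, hq]
    have e2 : (x⁻¹ * emb f 0 * x).a =
        -act (Coprod.inl q⁻¹) x.a + act (Coprod.inl (q⁻¹ * f)) x.a := by
      simp [emb, hq]
    refine ⟨emb f 0, ⟨f, hf, 0, rfl⟩, ⟨?_, q⁻¹ * f * q, hfH, e1⟩, ?_⟩
    · rw [e2, Finsupp.add_apply, Finsupp.neg_apply, act_inl_v0, act_inl_v0, neg_add_cancel]
    · rw [nextSgn, e1, e2, par_add, par_neg, par_act, par_act, Coprod.fst_apply_inl, hfs]
      ring
  · have e1 : (x⁻¹ * emb 1 1 * x).p = Coprod.inl 1 := by
      simp [emb]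
    have e2 : (x⁻¹ * emb 1 1 * x).a = Finsupp.single (x.p⁻¹ • v0 S.Q) 1 := by
      simp only [emb, mul_a, inv_a, mul_p, inv_p, act_single, map_one, mul_one]
      rw [add_comm (-act x.p⁻¹ x.a), neg_add_cancel_right]
    refine ⟨emb 1 1, ⟨1, S.one_F, 1, rfl⟩, ⟨?_, 1, one_mem _, e1⟩, ?_⟩
    · rw [e2]
      refine Finsupp.single_eq_of_ne ?_
      intro h
      apply hp
      exact (inv_smul_eq_iff.1 h.symm).symm
    · rw [nextSgn, e1, e2, par_single, Coprod.fst_apply_inl, sgn_one, add_zero]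

theorem nextLf : LocFin S.nextH := by
  classical
  intro T hT
  -- the `P`-parts
  have h1 : ∀ x ∈ T, ∃ h ∈ S.H, x.p = Coprod.inl h := fun x hx => (hT hx).2
  obtain ⟨B, hBH, hB, hBf⟩ := S.lf (T.image fun x => Coprod.fst x.p) (by
    intro y hy
    simp only [Finset.coe_image, Set.mem_image, Finset.mem_coe] at hy
    obtain ⟨x, hx, rfl⟩ := hy
    obtain ⟨h, hh, hxp⟩ := h1 x hx
    rw [hxp, Coprod.fst_apply_inl]
    exact hh)
  -- the finite set of lamps
  let W : Set (Cos S.Q) := {v | ∃ b ∈ B, ∃ x ∈ T, ∃ u ∈ x.a.support, v = (Coprod.inl b : FP S.Q) • u}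
  have hWf : W.Finite := by
    have : W ⊆ ⋃ b ∈ (B : Set S.Q), ⋃ x ∈ (T : Set (Ext S.Q)),
        (fun u => (Coprod.inl b : FP S.Q) • u) '' (x.a.support : Set (Cos S.Q)) := by
      rintro v ⟨b, hb, x, hx, u, hu, rfl⟩
      simp only [Set.mem_iUnion]
      exact ⟨b, hb, x, hx, u, hu, rfl⟩
    refine Set.Finite.subset ?_ this
    exact hBf.biUnion fun b _ => T.finite_toSet.biUnion fun x _ => (x.a.support.finite_toSet).image _
  have hW0 : v0 S.Q ∉ W := by
    rintro ⟨b, hb, x, hx, u, hu, h⟩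
    have h2 : u = v0 S.Q := by
      have := congrArg (fun v => (Coprod.inl b : FP S.Q)⁻¹ • v) h
      simp only [inv_smul_smul] at this
      rw [← this, ← map_inv, inl_smul_v0]
    rw [h2] at hu
    rw [Finsupp.mem_support_iff] at hu
    exact hu (hT hx).1
  have hWi : ∀ b ∈ B, ∀ v ∈ W, (Coprod.inl b : FP S.Q) • v ∈ W := by
    rintro b hb v ⟨b', hb', x, hx, u, hu, rfl⟩
    exact ⟨b * b', mul_mem hb hb', x, hx, u, hu, by rw [map_mul, mul_smul]⟩
  let C : Subgroup (Ext S.Q) :=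
    { carrier := {x | (∀ v, v ∉ W → x.a v = 0) ∧ ∃ b ∈ B, x.p = Coprod.inl b}
      one_mem' := ⟨by simp, 1, one_mem _, by simp⟩
      mul_mem' := by
        rintro x y ⟨hx, b, hb, hxp⟩ ⟨hy, b', hb', hyp⟩
        refine ⟨?_, b * b', mul_mem hb hb', by simp [hxp, hyp]⟩
        intro v hv
        simp only [mul_a, Finsupp.add_apply]
        rw [hx v hv, zero_add, hxp, act_apply]
        apply hy
        intro hv'
        apply hv
        have := hWi b hb _ hv'
        rwa [smul_inv_smul] at this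
      inv_mem' := by
        rintro x ⟨hx, b, hb, hxp⟩
        refine ⟨?_, b⁻¹, inv_mem hb, by simp [hxp]⟩
        intro v hv
        simp only [inv_a, Finsupp.neg_apply, neg_eq_zero]
        rw [hxp, act_apply]
        apply hx
        intro hv'
        apply hv
        have := hWi b⁻¹ (inv_mem hb) _ hv'
        rwa [inv_inv, ← mul_smul, ← map_mul, inv_mul_cancel, map_one, one_smul] at this }
  refine ⟨C, ?_, ?_, ?_⟩
  · rintro x ⟨hx, b, hb, hxp⟩
    exact ⟨hx _ hW0, b, hBH hb, hxp⟩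
  · intro x hx
    obtain ⟨h, hh, hxp⟩ := h1 x hx
    have hb : h ∈ B := by
      have : Coprod.fst x.p ∈ B := hB (by
        simp only [Finset.coe_image, Set.mem_image, Finset.mem_coe]
        exact ⟨x, hx, rfl⟩)
      rwa [hxp, Coprod.fst_apply_inl] at this
    refine ⟨?_, h, hb, hxp⟩
    intro v hv
    by_contra hne
    exact hv ⟨1, one_mem _, x, hx, v, by rwa [Finsupp.mem_support_iff], by simp⟩
  · -- finiteness
    have : (C : Set (Ext S.Q)) ⊆ (fun z : (Cos S.Q →₀ ZMod 2) × S.Q => (⟨z.1, Coprod.inl z.2⟩ : Ext S.Q)) ''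
        ({f : Cos S.Q →₀ ZMod 2 | ∀ v, v ∉ W → f v = 0} ×ˢ (B : Set S.Q)) := by
      rintro x ⟨hx, b, hb, hxp⟩
      exact ⟨(x.a, b), ⟨hx, hb⟩, by ext1 <;> simp [hxp]⟩
    refine Set.Finite.subset (Set.Finite.image _ (Set.Finite.prod ?_ hBf)) this
    have hfin : Finite W := hWf
    have hinj : Function.Injective
        (fun (f : {f : Cos S.Q →₀ ZMod 2 | ∀ v, v ∉ W → f v = 0}) (w : W) => f.1 w.1) := by
      intro f g hfg
      apply Subtype.ext
      ext v
      by_cases hv : v ∈ W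
      · exact congrFun hfg ⟨v, hv⟩
      · rw [f.2 v hv, g.2 v hv]
    exact Set.finite_coe_iff.1 (Finite.of_injective _ hinj)

instance countable_ext {Q : Type} [Group Q] [Countable Q] : Countable (Ext Q) := by
  have h0 : Countable (FreeGroup ℕ) := by
    unfold FreeGroup
    infer_instance
  have h1 : Countable (FreeMonoid (Q ⊕ FreeGroup ℕ)) := by
    unfold FreeMonoid
    infer_instance
  have h2 : Countable (FP Q) := (Coprod.mk_surjective (M := Q) (N := FreeGroup ℕ)).countable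
  have h3 : Countable (Cos Q) := (Quotient.mk''_surjective (α := FP Q)).countable
  have hinj : Function.Injective (fun x : Ext Q => (x.a, x.p)) := by
    intro x y h
    simp only [Prod.mk.injEq] at h
    ext1
    · exact h.1
    · exact h.2
  exact hinj.countable

/-- the next stage. -/
noncomputable def next : Stage where
  Q := Ext S.Q
  grp := inferInstance
  cnt := inferInstance
  H := S.nextH
  sgn := S.nextSgn
  F := S.nextF
  lf := S.nextLf
  sgn_mul := S.nextSgn_mul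
  one_F := ⟨1, S.one_F, 0, by ext1 <;> simp [emb]⟩
  cond := S.nextCond

/-- the first stage, `ℤ/2`. -/
noncomputable def start : Stage where
  Q := Multiplicative (ZMod 2)
  grp := inferInstance
  cnt := inferInstance
  H := ⊤
  sgn := fun q => Multiplicative.toAdd q
  F := Set.univ
  lf := fun _ _ => ⟨⊤, le_rfl, by simp, Set.toFinite _⟩
  sgn_mul := fun _ _ _ _ => rfl
  one_F := Set.mem_univ _
  cond := fun q => ⟨Multiplicative.ofAdd 1, Set.mem_univ _, by simp, by
    rw [mul_comm q⁻¹, mul_assoc, inv_mul_cancel, mul_one]; rfl⟩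

/-- the tower. -/
noncomputable def tower : ℕ → Stage
  | 0 => start
  | n + 1 => (tower n).next

end Stage

end Pool.Agent.MP977
end

section

/-!
# MP_977f72_an : the direction maps and the locally finite subgroup of the limit group
-/

set_option autoImplicit false

namespace Pool.Agent.MP977

open Filter Topology

namespace TowerData

variable {T : TowerData}

theorem exists_del (g : T.Lim) : ∃ z : ∀ n, T.Q n, (∀ n, T.δ n (z (n + 1)) = z n) ∧
    T.cls z = g.1 := by
  obtain ⟨m, x, hx⟩ := exists_rep g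
  obtain ⟨z, hz, hzx⟩ := delta_exists (T := T) m x (by
    intro n hn
    obtain ⟨c, hc⟩ := hx.1 n hn
    have := T.δ_ι n (x n) c 1
    rw [mul_one, T.δ_one, mul_one] at this
    rw [hc, this])
  exact ⟨z, hz, by rw [← hx.2]; exact T.cls_eq.2 ⟨m, hzx⟩⟩

variable (T)

/-- the direction maps of all levels. -/
noncomputable def del (g : T.Lim) : ∀ n, T.Q n := Classical.choose (exists_del g)

variable {T}

theorem del_del (g : T.Lim) (n : ℕ) : T.δ n (T.del g (n + 1)) = T.del g n :=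
  (Classical.choose_spec (exists_del g)).1 n

theorem cls_del (g : T.Lim) : T.cls (T.del g) = g.1 :=
  (Classical.choose_spec (exists_del g)).2

theorem del_unique {m : ℕ} {w : ∀ n, T.Q n} {g : T.Lim}
    (hw : ∀ n, m ≤ n → T.δ n (w (n + 1)) = w n) (hc : T.cls w = g.1) :
    ∀ n, m ≤ n → T.del g n = w n := by
  obtain ⟨k, hk⟩ := T.cls_eq.1 ((cls_del g).trans hc.symm)
  intro n hn
  exact delta_desc (fun n _ => del_del g n) hw k n hn (hk _ (by omega))

theorem del_mul {m : ℕ} {x : ∀ n, T.Q n} {g h : T.Lim} (hx : T.Rep m x g) :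
    ∀ n, m ≤ n → T.del (g * h) n = x n * T.del h n := by
  refine del_unique (w := fun n => x n * T.del h n) ?_ ?_
  · intro n hn
    obtain ⟨c, hc⟩ := hx.1 n hn
    rw [hc, T.δ_ι, del_del]
  · have h1 : (g * h).1 = g.1 * h.1 := rfl
    rw [h1, ← hx.2, ← cls_del h]
    rfl

theorem del_one (n : ℕ) : T.del 1 n = 1 :=
  del_unique (m := 0) (w := 1) (fun n _ => T.δ_one n) rfl n (Nat.zero_le n)

theorem del_rep {m : ℕ} {x : ∀ n, T.Q n} {g : T.Lim} (hx : T.Rep m x g) :
    ∀ n, m ≤ n → T.del g n = x n := by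
  intro n hn
  have := del_mul (h := 1) hx n hn
  rwa [mul_one, del_one, mul_one] at this

theorem eq_one_of_del {g : T.Lim} (h : ∀ n, T.del g n = 1) : g = 1 := by
  apply Subtype.ext
  rw [← cls_del g]
  exact T.cls_eq.2 ⟨0, fun n _ => h n⟩

theorem del_Ls {m : ℕ} {l : T.Lim} (hl : l ∈ T.Ls m) (g : T.Lim) :
    T.del (l * g) m = T.del g m := by
  obtain ⟨x, hx, hx1⟩ := hl
  rw [del_mul hx m le_rfl, hx1, one_mul]

/-- if `h` points to `1` at level `m`, then `g h` and `g` have the same directions at all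
levels `≤ m`, for `g ∈ G_m`. -/
theorem del_eq_of_dir {m : ℕ} {g h : T.Lim} (hg : g ∈ T.Gs m) (hh : T.del h m = 1) :
    ∀ n, n ≤ m → T.del (g * h) n = T.del g n := by
  obtain ⟨x, hx⟩ := hg
  have h0 : T.del (g * h) m = T.del g m := by
    rw [del_mul hx m le_rfl, hh, mul_one, del_rep hx m le_rfl]
  intro n hn
  obtain ⟨k, rfl⟩ := Nat.exists_eq_add_of_le hn
  exact delta_desc (m := 0) (fun n _ => del_del (g * h) n) (fun n _ => del_del g n) k n
    (Nat.zero_le n) h0

variable (T)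

/-- the elements making the action contracting. -/
theorem exists_push (m : ℕ) : ∃ s : ℕ → T.Lim, ∀ h : T.Lim, ∀ i j : ℕ,
    T.del (s i * h) m ≠ 1 → T.del (s j * h) m ≠ 1 → i = j := by
  obtain ⟨p, hp⟩ := T.P2 m
  refine ⟨fun i => T.elt (m + 1) (p i) 0, fun h i j hi hj => hp (T.del h (m + 1)) i j ?_ ?_⟩
  · have := del_mul (h := h) (T.elt_rep (m + 1) (p i) 0) (m + 1) le_rfl
    rw [seq_self] at this
    rwa [← this, del_del]
  · have := del_mul (h := h) (T.elt_rep (m + 1) (p j) 0) (m + 1) le_rfl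
    rw [seq_self] at this
    rwa [← this, del_del]

/-- sequences in `H`. -/
def HCoh (m : ℕ) (x : ∀ n, T.Q n) : Prop :=
  ∀ n, m ≤ n → x (n + 1) = T.ι n (x n) 0 ∧ x n ∈ T.H n

variable {T}

theorem HCoh.coh {m : ℕ} {x : ∀ n, T.Q n} (h : T.HCoh m x) : T.Coh m x :=
  fun n hn => ⟨0, (h n hn).1⟩

theorem HCoh.mono {m k : ℕ} (hk : m ≤ k) {x : ∀ n, T.Q n} (h : T.HCoh m x) : T.HCoh k x :=
  fun n hn => h n (hk.trans hn)

theorem HCoh.mul {m : ℕ} {x y : ∀ n, T.Q n} (hx : T.HCoh m x) (hy : T.HCoh m y) :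
    T.HCoh m (x * y) := by
  intro n hn
  refine ⟨?_, mul_mem (hx n hn).2 (hy n hn).2⟩
  simp only [Pi.mul_apply]
  rw [(hx n hn).1, (hy n hn).1, T.ι_mul, add_zero]

theorem HCoh.inv {m : ℕ} {x : ∀ n, T.Q n} (hx : T.HCoh m x) : T.HCoh m x⁻¹ := by
  intro n hn
  refine ⟨?_, inv_mem (hx n hn).2⟩
  simp only [Pi.inv_apply]
  rw [(hx n hn).1, T.ι_inv, neg_zero]

theorem HCoh.one : T.HCoh 0 (1 : ∀ n, T.Q n) := fun n _ => ⟨(T.ι_one n).symm, one_mem _⟩

/-- it suffices to have `x m ∈ H m`. -/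
theorem HCoh.of {m : ℕ} {x : ∀ n, T.Q n} (h1 : ∀ n, m ≤ n → x (n + 1) = T.ι n (x n) 0)
    (h2 : x m ∈ T.H m) : T.HCoh m x := by
  intro n hn
  refine ⟨h1 n hn, ?_⟩
  induction n, hn using Nat.le_induction with
  | base => exact h2
  | succ n hn ih => rw [h1 n hn]; exact (T.H_ι _ _ _).2 ⟨rfl, ih⟩

theorem HCoh.sgn {m : ℕ} {x : ∀ n, T.Q n} (h : T.HCoh m x) :
    ∀ n, m ≤ n → T.sgn n (x n) = T.sgn m (x m) := by
  intro n hn
  induction n, hn using Nat.le_induction with
  | base => rfl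
  | succ n hn ih => rw [(h n hn).1, T.sgn_ι n _ (h n hn).2, ih]

variable (T)

/-- the locally finite subgroup of the limit group. -/
def HG : Subgroup T.Lim where
  carrier := {g | ∃ m x, T.HCoh m x ∧ T.cls x = g.1}
  one_mem' := ⟨0, 1, HCoh.one, rfl⟩
  mul_mem' := by
    rintro g h ⟨m, x, hx, hxg⟩ ⟨k, y, hy, hyh⟩
    refine ⟨max m k, x * y, (hx.mono (le_max_left _ _)).mul (hy.mono (le_max_right _ _)), ?_⟩
    have : (g * h).1 = g.1 * h.1 := rfl
    rw [this, ← hxg, ← hyh]
    rfl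
  inv_mem' := by
    rintro g ⟨m, x, hx, hxg⟩
    refine ⟨m, x⁻¹, hx.inv, ?_⟩
    have : (g⁻¹).1 = g.1⁻¹ := rfl
    rw [this, ← hxg]
    rfl

open Classical in
/-- the sign on the limit group. -/
noncomputable def sg (g : T.Lim) : ℤ :=
  if ∀ᶠ n in atTop, T.sgn n (T.del g n) = 1 then -1 else 1

variable {T}

theorem zmod2 (s : ZMod 2) : s = 0 ∨ s = 1 := by
  revert s; decide

/-- the sign of an element of `ℤ/2`. -/
def sgnOf (s : ZMod 2) : ℤ := if s = 1 then -1 else 1

theorem sg_eq {m : ℕ} {x : ∀ n, T.Q n} {g : T.Lim} (hx : T.HCoh m x) (hg : T.cls x = g.1) :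
    T.sg g = sgnOf (T.sgn m (x m)) := by
  have hd : ∀ n, m ≤ n → T.sgn n (T.del g n) = T.sgn m (x m) := by
    intro n hn
    rw [del_rep ⟨hx.coh, hg⟩ n hn, hx.sgn n hn]
  unfold sg sgnOf
  have : (∀ᶠ n in atTop, T.sgn n (T.del g n) = 1) ↔ T.sgn m (x m) = 1 := by
    constructor
    · intro h
      obtain ⟨n, hn1, hn2⟩ := (h.and (eventually_ge_atTop m)).exists
      rw [← hd n hn2, hn1]
    · intro h
      filter_upwards [eventually_ge_atTop m] with n hn
      rw [hd n hn, h]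
  simp only [this]

theorem sg_mul {g h : T.Lim} (hg : g ∈ T.HG) (hh : h ∈ T.HG) : T.sg (g * h) = T.sg g * T.sg h := by
  obtain ⟨m, x, hx, hxg⟩ := hg
  obtain ⟨k, y, hy, hyh⟩ := hh
  have hx' := hx.mono (le_max_left m k)
  have hy' := hy.mono (le_max_right m k)
  have hxy : T.cls (x * y) = (g * h).1 := by
    have : (g * h).1 = g.1 * h.1 := rfl
    rw [this, ← hxg, ← hyh]
    rfl
  rw [sg_eq (hx'.mul hy') hxy, sg_eq hx' hxg, sg_eq hy' hyh]
  have h3 : T.sgn (max m k) ((x * y) (max m k)) = _ :=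
    T.sgn_mul _ _ (hx' _ le_rfl).2 _ (hy' _ le_rfl).2
  rw [h3]
  rcases zmod2 (T.sgn (max m k) (x (max m k))) with h1 | h1 <;>
    rcases zmod2 (T.sgn (max m k) (y (max m k))) with h2 | h2 <;> rw [h1, h2] <;> decide

theorem sg_sq (g : T.Lim) : T.sg g * T.sg g = 1 := by
  unfold sg
  split_ifs <;> norm_num

theorem HG_inf_Ls {g : T.Lim} (hg : g ∈ T.HG) (hl : g ∈ T.Ls 0) : g = 1 := by
  obtain ⟨m, x, hx, hxg⟩ := hg
  obtain ⟨y, hy, hy1⟩ := hl
  have hxy : ∀ n, m ≤ n → x n = y n := fun n hn =>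
    Rep.unique ⟨hx.coh, hxg⟩ (hy.mono (Nat.zero_le m)) n hn
  -- descend
  have key : ∀ j k, y (k + j) ∈ T.H (k + j) → y k ∈ T.H k ∧ ∀ i, i < j → y (k + i + 1) =
      T.ι (k + i) (y (k + i)) 0 := by
    intro j
    induction j with
    | zero => intro k hk; exact ⟨hk, fun i hi => by omega⟩
    | succ j ih =>
      intro k hk
      have e : k + 1 + j = k + (j + 1) := by ring
      have hk' : y (k + j + 1) ∈ T.H (k + j + 1) := hk
      obtain ⟨c, hc⟩ := hy.1 (k + j) (Nat.zero_le _)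
      rw [hc, T.H_ι] at hk'
      obtain ⟨h1, h2⟩ := ih k hk'.2
      refine ⟨h1, fun i hi => ?_⟩
      rcases Nat.lt_succ_iff_lt_or_eq.1 hi with h | rfl
      · exact h2 i h
      · rw [hc, hk'.1]
  have hall : ∀ n, y n = 1 := by
    intro n
    obtain ⟨_, h2⟩ := key (max n m + 1) 0 (by
      have h5 : m ≤ 0 + (max n m + 1) := by omega
      rw [← hxy _ h5]
      exact (hx _ h5).2)
    have h3 : ∀ i, i ≤ max n m + 1 → y i = 1 := by
      intro i
      induction i with
      | zero => intro _; exact hy1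
      | succ i ih =>
        intro hi
        have := h2 i (by omega)
        rw [Nat.zero_add] at this
        rw [this, ih (by omega), T.ι_one]
    exact h3 n (by omega)
  exact hy.ext (Rep.one 0) 0 (fun n _ => hall n)

theorem HG_lf (S : Finset T.Lim) (hS : (↑S : Set T.Lim) ⊆ T.HG) :
    ∃ B : Subgroup T.Lim, B ≤ T.HG ∧ (↑S : Set T.Lim) ⊆ B ∧ (B : Set T.Lim).Finite := by
  classical
  -- a common level
  have h1 : ∃ m, ∀ g ∈ S, ∃ x, T.HCoh m x ∧ T.cls x = g.1 := by
    induction S using Finset.induction_on with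
    | empty => exact ⟨0, by simp⟩
    | insert g S hgS ih =>
      obtain ⟨m, hm⟩ := ih (fun y hy => hS (by simp at hy ⊢; exact Or.inr hy))
      obtain ⟨k, x, hx, hxg⟩ := hS (show g ∈ (↑(insert g S) : Set T.Lim) by simp)
      refine ⟨max m k, fun h hh => ?_⟩
      rcases Finset.mem_insert.1 hh with rfl | hh
      · exact ⟨x, hx.mono (le_max_right _ _), hxg⟩
      · obtain ⟨y, hy, hyh⟩ := hm h hh
        exact ⟨y, hy.mono (le_max_left _ _), hyh⟩
  obtain ⟨m, hm⟩ := h1
  choose! r hr using hm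
  -- the embedding of `Q m`
  have hseq : ∀ (q : T.Q m) n, m ≤ n → T.seq m q 0 (n + 1) = T.ι n (T.seq m q 0 n) 0 :=
    fun q n hn => T.seq_succ hn q 0
  have hseqmul : ∀ (q q' : T.Q m) n, m ≤ n → T.seq m (q * q') 0 n = T.seq m q 0 n * T.seq m q' 0 n := by
    intro q q' n hn
    induction n, hn using Nat.le_induction with
    | base => rw [seq_self, seq_self, seq_self]
    | succ n hn ih => rw [hseq _ _ hn, hseq _ _ hn, hseq _ _ hn, T.ι_mul, ih, add_zero]
  let E : T.Q m →* T.Lim :=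
    MonoidHom.mk' (fun q => T.elt m q 0) (fun q q' => by
      refine (T.elt_rep m (q * q') 0).ext ((T.elt_rep m q 0).mul (T.elt_rep m q' 0)) m ?_
      intro n hn
      simpa using hseqmul q q' n hn)
  obtain ⟨B, hBH, hSB, hBf⟩ := T.lf m (S.image fun g => r g m) (by
    intro y hy
    simp only [Finset.coe_image, Set.mem_image, Finset.mem_coe] at hy
    obtain ⟨g, hg, rfl⟩ := hy
    exact ((hr g hg).1 m le_rfl).2)
  refine ⟨B.map E, ?_, ?_, ?_⟩
  · rintro _ ⟨q, hq, rfl⟩
    exact ⟨m, T.seq m q 0, HCoh.of (fun n hn => hseq q n hn) (by rw [seq_self]; exact hBH hq), rfl⟩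
  · intro g hg
    refine ⟨r g m, hSB (by simp only [Finset.coe_image, Set.mem_image, Finset.mem_coe]; exact ⟨g, hg, rfl⟩), ?_⟩
    refine (T.elt_rep m (r g m) 0).ext ⟨(hr g hg).1.coh, (hr g hg).2⟩ m ?_
    intro n hn
    induction n, hn using Nat.le_induction with
    | base => rw [seq_self]
    | succ n hn ih => rw [hseq _ _ hn, ih, ((hr g hg).1 n hn).1]
  · rw [Subgroup.coe_map]
    exact hBf.image _

/-- every element of `F m` extends to an element of `G_0`. -/
theorem exists_ext (m : ℕ) : ∀ f ∈ T.F m, ∃ x : ∀ n, T.Q n, T.Coh 0 x ∧ x m = f ∧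
    ∀ n, m ≤ n → x (n + 1) = T.ι n (x n) 0 := by
  induction m with
  | zero =>
    intro f _
    exact ⟨T.seq 0 f 0, T.seq_coh 0 f 0, T.seq_self 0 f 0, fun n hn => T.seq_succ hn f 0⟩
  | succ m ih =>
    intro f hf
    obtain ⟨f', hf', c, rfl⟩ := T.F_succ m f hf
    obtain ⟨x, hx, hxm, hx0⟩ := ih f' hf'
    -- labels
    choose d hd using fun n => hx n (Nat.zero_le n)
    let e : ℕ → ZMod 2 := fun n => if n = m then c else if n < m then d n else 0
    have hs : ∀ n, n ≤ m → T.seq 0 (x 0) e n = x n := by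
      intro n
      induction n with
      | zero => intro _; rw [seq_self]
      | succ n ihn =>
        intro hn
        rw [T.seq_succ (Nat.zero_le _), ihn (by omega), hd]
        simp only [e]
        rw [if_neg (by omega), if_pos (by omega)]
    refine ⟨T.seq 0 (x 0) e, T.seq_coh _ _ _, ?_, fun n hn => ?_⟩
    · rw [T.seq_succ (Nat.zero_le _), hs m le_rfl, hxm]
      simp [e]
    · rw [T.seq_succ (Nat.zero_le _)]
      simp only [e]
      rw [if_neg (by omega), if_neg (by omega)]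

theorem cond_G (g : T.Lim) : ∃ h ∈ T.HG, g * h * g⁻¹ ∈ T.Gs 0 ∧ T.sg h = -1 := by
  obtain ⟨m, x, hx⟩ := exists_rep g
  obtain ⟨f, hf, hfH, hfs⟩ := T.cond m (x m)
  obtain ⟨y, hy, hym, hy0⟩ := exists_ext m f hf
  have hrep : T.Rep 0 y (⟨T.cls y, 0, y, hy, rfl⟩ : T.Lim) := ⟨hy, rfl⟩
  set k : T.Lim := ⟨T.cls y, 0, y, hy, rfl⟩ with hk
  have hr1 : T.Rep m (x⁻¹ * y * x) (g⁻¹ * k * g) :=
    (hx.inv.mul (hrep.mono (Nat.zero_le m))).mul hx
  have hH : T.HCoh m (x⁻¹ * y * x) := by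
    refine HCoh.of ?_ ?_
    · intro n hn
      obtain ⟨c, hc⟩ := hx.1 n hn
      simp only [Pi.mul_apply, Pi.inv_apply]
      rw [hc, hy0 n hn, T.ι_inv, T.ι_mul, T.ι_mul, add_zero, neg_add_cancel]
    · simp only [Pi.mul_apply, Pi.inv_apply]
      rw [hym]
      exact hfH
  refine ⟨g⁻¹ * k * g, ⟨m, _, hH, hr1.2⟩, ?_, ?_⟩
  · have : g * (g⁻¹ * k * g) * g⁻¹ = k := by group
    rw [this]
    exact ⟨y, hrep⟩
  · rw [sg_eq hH hr1.2]
    simp only [Pi.mul_apply, Pi.inv_apply]
    rw [hym, hfs]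
    rfl

end TowerData

end Pool.Agent.MP977
end

section

/-!
# MP_977f72_an : a criterion for non-simplicity of the reduced `C*`-algebra
-/

set_option autoImplicit false
set_option linter.unusedSectionVars false

open MeasureTheory Topology Filter
open scoped Pointwise

namespace Pool.Agent.MP977

variable {G : Type} [Group G] [TopologicalSpace G] [IsTopologicalGroup G]
  [LocallyCompactSpace G] [T2Space G] [SecondCountableTopology G] [MeasurableSpace G]
  [BorelSpace G] (μ : Measure G) [μ.IsHaarMeasure]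

/-- Pointwise criterion for the vanishing of `λ(f) F`. -/
theorem conv_toLp_eq_zero {f : G → ℂ} (hf : Integrable f μ) {K : Set G} (hK : IsCompact K)
    (hfK : ∀ g, g ∉ K → f g = 0) {F : G → ℂ} (hFc : Continuous F) (hFs : HasCompactSupport F)
    (hF : MemLp F 2 μ) (h0 : ∀ z, ∫ g, f g * F (g⁻¹ * z) ∂μ = 0) :
    conv μ f hf (hF.toLp F) = 0 := by
  refine ext_inner_left ℂ fun ζ => ?_
  rw [inner_zero_right, conv_apply, ← integral_inner (integrable_smul_lreg μ hf _)]
  -- the inner products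
  have e1 : ∀ g, inner ℂ ζ (f g • lreg μ g (hF.toLp F)) =
      ∫ z, f g * (F (g⁻¹ * z) * (starRingEnd ℂ) (ζ z)) ∂μ := by
    intro g
    rw [inner_smul_right, L2.inner_def, ← integral_const_mul]
    refine integral_congr_ae ?_
    have h1 : lreg μ g (hF.toLp F) =ᵐ[μ] fun z => F (g⁻¹ * z) := by
      have h2 : lreg μ g (hF.toLp F) =
          (hF.comp_measurePreserving (measurePreserving_mul_left μ g⁻¹)).toLp _ := rfl
      rw [h2]
      exact (hF.comp_measurePreserving (measurePreserving_mul_left μ g⁻¹)).coeFn_toLp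
    filter_upwards [h1] with z hz
    rw [hz, RCLike.inner_apply]
  simp_rw [e1]
  -- a compact set containing everything
  let K1 : Set G := K * tsupport F
  have hK1 : IsCompact K1 := hK.mul hFs
  obtain ⟨C, hC⟩ := hFc.bounded_above_of_compact_support hFs
  have hζ : IntegrableOn (fun z => ζ z) K1 μ := by
    have h3 : MemLp (fun z => ζ z) 2 (μ.restrict K1) := (Lp.memLp ζ).restrict K1
    have h4 : IsFiniteMeasure (μ.restrict K1) :=
      ⟨by rw [Measure.restrict_apply_univ]; exact hK1.measure_lt_top⟩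
    exact h3.integrable (by norm_num)
  have hdom : Integrable (fun z : G × G => ‖f z.1‖ * (C * (K1.indicator (fun z => ‖ζ z‖) z.2)))
      (μ.prod μ) := by
    refine Integrable.mul_prod (f := fun g => ‖f g‖)
      (g := fun z => C * K1.indicator (fun z => ‖ζ z‖) z) hf.norm ?_
    refine Integrable.const_mul ?_ C
    rw [integrable_indicator_iff hK1.isClosed.measurableSet]
    exact hζ.norm
  have hint : Integrable (Function.uncurry fun g z => f g * (F (g⁻¹ * z) * (starRingEnd ℂ) (ζ z)))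
      (μ.prod μ) := by
    refine hdom.mono' ?_ (Eventually.of_forall ?_)
    · refine (hf.1.comp_fst).mul (AEStronglyMeasurable.mul ?_ ?_)
      · exact (hFc.comp (continuous_fst.inv.mul continuous_snd)).aestronglyMeasurable
      · exact (Complex.continuous_conj.comp_aestronglyMeasurable
          (Lp.aestronglyMeasurable ζ)).comp_snd
    · rintro ⟨g, z⟩
      simp only [Function.uncurry, norm_mul, RCLike.norm_conj]
      by_cases hg : g ∈ K
      · by_cases hz : z ∈ K1
        · rw [Set.indicator_of_mem hz]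
          gcongr
          exact hC _
        · have : F (g⁻¹ * z) = 0 := by
            by_contra hne
            apply hz
            exact ⟨g, hg, g⁻¹ * z, subset_tsupport F hne, by simp⟩
          rw [this]
          simp only [norm_zero, zero_mul, mul_zero]
          have h5 : (0 : ℝ) ≤ C := (norm_nonneg _).trans (hC 1)
          have h6 : (0 : ℝ) ≤ K1.indicator (fun z => ‖ζ z‖) z :=
            Set.indicator_nonneg (fun _ _ => norm_nonneg _) _
          positivity
      · rw [hfK g hg]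
        simp
  rw [integral_integral_swap hint]
  have e2 : ∀ z, ∫ g, f g * (F (g⁻¹ * z) * (starRingEnd ℂ) (ζ z)) ∂μ = 0 := by
    intro z
    have : (fun g => f g * (F (g⁻¹ * z) * (starRingEnd ℂ) (ζ z))) =
        fun g => (f g * F (g⁻¹ * z)) * (starRingEnd ℂ) (ζ z) := by
      ext g; ring
    rw [this, integral_mul_const, h0, zero_mul]
  simp_rw [e2]
  simp

/-- the normalised indicator function of a subgroup. -/
noncomputable def nind (M : Subgroup G) (g : G) : ℂ :=
  ((μ (M : Set G)).toReal⁻¹ : ℂ) * (M : Set G).indicator 1 g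

variable {M : Subgroup G} (hMo : IsOpen (M : Set G)) (hMc : IsCompact (M : Set G))

include hMo hMc in
theorem measure_pos_fin : 0 < (μ (M : Set G)).toReal := by
  refine ENNReal.toReal_pos ?_ hMc.measure_lt_top.ne
  exact (hMo.measure_pos μ ⟨1, one_mem M⟩).ne'

include hMo hMc in
theorem nind_integrable : Integrable (nind μ M) μ := by
  refine Integrable.const_mul ?_ _
  rw [integrable_indicator_iff hMo.measurableSet]
  exact integrableOn_const hMc.measure_lt_top.ne

include hMo hMc in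
theorem integral_nind : ∫ g, nind μ M g ∂μ = 1 := by
  unfold nind
  rw [integral_const_mul, integral_indicator hMo.measurableSet]
  simp only [Pi.one_apply, integral_const, MeasurableSet.univ, measureReal_restrict_apply,
    Set.univ_inter]
  rw [Measure.real, Complex.real_smul, mul_one, ← Complex.ofReal_inv, ← Complex.ofReal_mul,
    inv_mul_cancel₀ (measure_pos_fin μ hMo hMc).ne', Complex.ofReal_one]

include hMo hMc in
theorem integral_norm_nind : ∫ g, ‖nind μ M g‖ ∂μ = 1 := by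
  have h1 : ∀ g, ‖nind μ M g‖ = (nind μ M g).re := by
    intro g
    unfold nind
    by_cases hg : g ∈ (M : Set G)
    · rw [Set.indicator_of_mem hg]
      simp [abs_of_nonneg]
    · rw [Set.indicator_of_notMem hg]
      simp
  simp_rw [h1]
  have h2 := integral_re (𝕜 := ℂ) (nind_integrable μ hMo hMc)
  simp only [RCLike.re_to_complex] at h2
  rw [h2, integral_nind μ hMo hMc]
  simp

/-- the projection `p_M`. -/
noncomputable def proj : Lp ℂ 2 μ →L[ℂ] Lp ℂ 2 μ := conv μ (nind μ M) (nind_integrable μ hMo hMc)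

theorem norm_proj_le : ‖proj μ hMo hMc‖ ≤ 1 := by
  refine (norm_conv_le μ _).trans ?_
  rw [integral_norm_nind μ hMo hMc]

theorem proj_mem : proj μ hMo hMc ∈ reducedL μ := subset_closure (conv_mem μ _)

theorem proj_eq_self {ξ : Lp ℂ 2 μ} (h : ∀ g ∈ M, lreg μ g ξ = ξ) : proj μ hMo hMc ξ = ξ := by
  rw [proj, conv_apply]
  have : ∀ g, nind μ M g • lreg μ g ξ = nind μ M g • ξ := by
    intro g
    by_cases hg : g ∈ M
    · rw [h g hg]
    · have : nind μ M g = 0 := by
        unfold nind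
        rw [Set.indicator_of_notMem (by simpa using hg), mul_zero]
      rw [this, zero_smul, zero_smul]
  simp_rw [this]
  rw [integral_smul_const, integral_nind μ hMo hMc, one_smul]

section Eta

variable (σ : G → ℤ)

open Classical in
/-- the function `∑_{b ∈ B} σ(b) 1_{M b}`. -/
noncomputable def etaF (M : Subgroup G) (B : Finset G) (w : G) : ℂ :=
  ∑ b ∈ B, if w * b⁻¹ ∈ M then (σ b : ℂ) else 0

include hMo in
theorem etaF_continuous (B : Finset G) : Continuous (etaF σ M B) := by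
  classical
  unfold etaF
  refine continuous_finsetSum _ fun b _ => ?_
  have hcl : IsClopen {w : G | w * b⁻¹ ∈ M} := by
    have : IsClopen (M : Set G) := ⟨M.isClosed_of_isOpen hMo, hMo⟩
    exact this.preimage (continuous_mul_const b⁻¹)
  refine Continuous.if ?_ continuous_const continuous_const
  intro a ha
  rw [hcl.frontier_eq] at ha
  exact ha.elim

end Eta

end Pool.Agent.MP977
end

section

/-!
# MP_977f72_an : the pointwise formula for `λ(f) ξ`
-/

set_option autoImplicit false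
set_option linter.unusedSectionVars false

open MeasureTheory Topology Filter

namespace Pool.Agent.MP977

variable {G : Type} [Group G] [TopologicalSpace G] [IsTopologicalGroup G]
  [LocallyCompactSpace G] [T2Space G] [SecondCountableTopology G] [MeasurableSpace G]
  [BorelSpace G] (μ : Measure G) [μ.IsHaarMeasure]

theorem lreg_ae (g : G) (ξ : Lp ℂ 2 μ) : lreg μ g ξ =ᵐ[μ] fun x => ξ (g⁻¹ * x) :=
  Lp.coeFn_compMeasurePreserving ξ (measurePreserving_mul_left μ g⁻¹)

theorem integrable_restrict_Lp {S : Set G} (hS : μ S ≠ ⊤) (η : Lp ℂ 2 μ) :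
    Integrable (fun x => η x) (μ.restrict S) := by
  have h3 : MemLp (fun z => η z) 2 (μ.restrict S) := (Lp.memLp η).restrict S
  have h4 : IsFiniteMeasure (μ.restrict S) :=
    ⟨by rw [Measure.restrict_apply_univ]; exact hS.lt_top⟩
  exact h3.integrable (by norm_num)

theorem integral_norm_restrict_le {S : Set G} (hS : μ S ≠ ⊤) :
    ∃ C : ℝ, 0 ≤ C ∧ ∀ η : Lp ℂ 2 μ, ∫ x, ‖η x‖ ∂(μ.restrict S) ≤ ‖η‖ * C := by
  refine ⟨((μ S) ^ ((1 : ℝ) - 1 / 2)).toReal, ENNReal.toReal_nonneg, fun η => ?_⟩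
  have h1 : eLpNorm (fun x => η x) 1 (μ.restrict S) ≤
      eLpNorm (fun x => η x) 2 (μ.restrict S) * (μ S) ^ ((1 : ℝ) - 1 / 2) := by
    have h2 := eLpNorm_le_eLpNorm_mul_rpow_measure_univ (μ := μ.restrict S) (p := 1) (q := 2)
      (f := fun x => η x) (by norm_num) ((Lp.aestronglyMeasurable η).restrict)
    simpa using h2
  have h3 : eLpNorm (fun x => η x) 2 (μ.restrict S) ≤ eLpNorm (fun x => η x) 2 μ :=
    eLpNorm_mono_measure _ Measure.restrict_le_self
  have h4 : ∫ x, ‖η x‖ ∂(μ.restrict S) = (eLpNorm (fun x => η x) 1 (μ.restrict S)).toReal := by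
    rw [eLpNorm_one_eq_lintegral_enorm]
    exact integral_norm_eq_lintegral_enorm ((Lp.aestronglyMeasurable η).restrict)
  rw [h4, Lp.norm_def, ← ENNReal.toReal_mul]
  apply ENNReal.toReal_mono
  · exact ENNReal.mul_ne_top (Lp.eLpNorm_ne_top η)
      (ENNReal.rpow_ne_top_of_nonneg (by norm_num) hS)
  · exact h1.trans (by gcongr)

theorem integrable_kernel {f : G → ℂ} (hf : Integrable f μ) (ξ : Lp ℂ 2 μ) {S : Set G}
    (hS : μ S ≠ ⊤) :
    Integrable (fun z : G × G => f z.1 * ξ (z.1⁻¹ * z.2)) (μ.prod (μ.restrict S)) := by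
  have hm : AEStronglyMeasurable (fun z : G × G => f z.1 * ξ (z.1⁻¹ * z.2))
      (μ.prod (μ.restrict S)) := by
    refine hf.1.comp_fst.mul ?_
    have h1 : StronglyMeasurable (fun z : G × G => ξ (z.1⁻¹ * z.2)) :=
      (Lp.stronglyMeasurable ξ).comp_measurable (by fun_prop)
    exact h1.aestronglyMeasurable
  obtain ⟨C, hC0, hC⟩ := integral_norm_restrict_le μ hS
  rw [integrable_prod_iff hm]
  have hae : ∀ g : G, (fun x => ξ (g⁻¹ * x)) =ᵐ[μ.restrict S] fun x => lreg μ g ξ x := fun g =>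
    ae_restrict_of_ae (lreg_ae μ g ξ).symm
  constructor
  · refine Eventually.of_forall fun g => ?_
    exact ((integrable_restrict_Lp μ hS (lreg μ g ξ)).congr (hae g).symm).const_mul (f g)
  · refine Integrable.mono' (hf.norm.mul_const (‖ξ‖ * C)) ?_ (Eventually.of_forall fun g => ?_)
    · exact hm.norm.integral_prod_right'
    · rw [Real.norm_of_nonneg (integral_nonneg fun _ => norm_nonneg _)]
      simp only [norm_mul]
      rw [integral_const_mul]
      gcongr
      calc ∫ x, ‖ξ (g⁻¹ * x)‖ ∂(μ.restrict S) = ∫ x, ‖lreg μ g ξ x‖ ∂(μ.restrict S) := by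
            refine integral_congr_ae ?_
            filter_upwards [hae g] with x hx
            rw [hx]
        _ ≤ ‖lreg μ g ξ‖ * C := hC _
        _ = ‖ξ‖ * C := by rw [norm_lreg]

/-- the pointwise formula. -/
theorem conv_ae {f : G → ℂ} (hf : Integrable f μ) (ξ : Lp ℂ 2 μ) :
    conv μ f hf ξ =ᵐ[μ] fun x => ∫ g, f g * ξ (g⁻¹ * x) ∂μ := by
  refine ae_eq_of_forall_setIntegral_eq_of_sigmaFinite ?_ ?_ ?_
  · intro S _ hS
    exact integrable_restrict_Lp μ hS.ne _
  · intro S _ hS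
    have := (integrable_kernel μ hf ξ hS.ne).swap.integral_prod_left
    exact this
  · intro S hSm hS
    have h1 : ∫ x in S, conv μ f hf ξ x ∂μ =
        inner ℂ (indicatorConstLp 2 hSm hS.ne (1 : ℂ)) (conv μ f hf ξ) :=
      (L2.inner_indicatorConstLp_one hSm hS.ne _).symm
    rw [h1, conv_apply, ← integral_inner (integrable_smul_lreg μ hf _)]
    have h2 : ∀ g, inner ℂ (indicatorConstLp 2 hSm hS.ne (1 : ℂ)) (f g • lreg μ g ξ) =
        ∫ x in S, f g * ξ (g⁻¹ * x) ∂μ := by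
      intro g
      rw [inner_smul_right, L2.inner_indicatorConstLp_one hSm hS.ne, integral_const_mul]
      congr 1
      exact integral_congr_ae (ae_restrict_of_ae (lreg_ae μ g ξ))
    simp_rw [h2]
    exact integral_integral_swap (integrable_kernel μ hf ξ hS.ne)

theorem convOps_eq : convOps μ = convOpsL μ := by
  ext T
  constructor
  · rintro ⟨f, hf, h⟩
    refine ⟨f, hf, fun ξ => ?_⟩
    have h2 : (fun x => (T ξ : L2 μ).fn x) =ᵐ[μ] fun x => ∫ g, f g * ξ (g⁻¹ * x) ∂μ := h ξ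
    have h3 := h2.trans (conv_ae μ hf ξ).symm
    exact Lp.ext h3
  · rintro ⟨f, hf, h⟩
    refine ⟨f, hf, fun ξ => ?_⟩
    have h1 : (T ξ : Lp ℂ 2 μ) = conv μ f hf ξ := h ξ
    have h2 := conv_ae μ hf ξ
    rw [← h1] at h2
    exact h2

theorem reducedCStar_eq : reducedCStar μ = reducedL μ := by
  unfold reducedCStar reducedL
  rw [convOps_eq]
  rfl

end Pool.Agent.MP977
end

section

/-!
# MP_977f72_an : a criterion for non-simplicity of the reduced `C*`-algebra, II
-/

set_option autoImplicit false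
set_option linter.unusedSectionVars false

open MeasureTheory Topology Filter
open scoped Pointwise

namespace Pool.Agent.MP977

variable {G : Type} [Group G] [TopologicalSpace G] [IsTopologicalGroup G]
  [LocallyCompactSpace G] [T2Space G] [SecondCountableTopology G] [MeasurableSpace G]
  [BorelSpace G] (μ : Measure G) [μ.IsHaarMeasure]

variable {M : Subgroup G} (hMo : IsOpen (M : Set G)) (hMc : IsCompact (M : Set G))
variable (σ : G → ℤ)

theorem etaF_ne_zero {B : Finset G} {w : G} (h : etaF σ M B w ≠ 0) : ∃ b ∈ B, w * b⁻¹ ∈ M := by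
  classical
  unfold etaF at h
  obtain ⟨b, hb, hb'⟩ := Finset.exists_ne_zero_of_sum_ne_zero h
  refine ⟨b, hb, ?_⟩
  by_contra hcon
  rw [if_neg hcon] at hb'
  exact hb' rfl

include hMc in
theorem etaF_compact (B : Finset G) : HasCompactSupport (etaF σ M B) := by
  refine HasCompactSupport.intro (K := (M : Set G) * (B : Set G))
    (hMc.mul B.finite_toSet.isCompact) fun w hw => ?_
  by_contra hne
  obtain ⟨b, hb, hb'⟩ := etaF_ne_zero σ hne
  exact hw ⟨w * b⁻¹, hb', b, hb, by simp⟩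

include hMo hMc in
theorem etaF_memLp (B : Finset G) : MemLp (etaF σ M B) 2 μ :=
  (etaF_continuous hMo σ B).memLp_of_hasCompactSupport (etaF_compact hMc σ B)

/-- the vector `η_B`. -/
noncomputable def eta (B : Finset G) : Lp ℂ 2 μ := (etaF_memLp μ hMo hMc σ B).toLp

theorem lreg_eta (g : G) (B : Finset G) : lreg μ g (eta μ hMo hMc σ B) =
    ((etaF_memLp μ hMo hMc σ B).comp_measurePreserving
      (measurePreserving_mul_left μ g⁻¹)).toLp _ := rfl

theorem lreg_eta_self {g : G} (hg : g ∈ M) (B : Finset G) :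
    lreg μ g (eta μ hMo hMc σ B) = eta μ hMo hMc σ B := by
  rw [lreg_eta]
  unfold eta
  congr 1
  ext w
  unfold etaF
  refine Finset.sum_congr rfl fun b _ => ?_
  have : g⁻¹ * w * b⁻¹ ∈ M ↔ w * b⁻¹ ∈ M := by
    rw [mul_assoc]
    exact M.mul_mem_cancel_left (inv_mem hg)
  simp only []
  by_cases hc : w * b⁻¹ ∈ M
  · rw [if_pos (this.2 hc), if_pos hc]
  · rw [if_neg (fun h => hc (this.1 h)), if_neg hc]

/-- `η_B ≠ 0`. -/
theorem eta_ne_zero {B : Finset G} (h1 : (1 : G) ∈ B) (hB : ∀ b ∈ B, b ∈ M → b = 1)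
    (hσ : σ 1 ≠ 0) : eta μ hMo hMc σ B ≠ 0 := by
  classical
  intro h0
  have h2 : etaF σ M B =ᵐ[μ] 0 := by
    have h3 := (etaF_memLp μ hMo hMc σ B).coeFn_toLp
    have h4 : (eta μ hMo hMc σ B : G → ℂ) =ᵐ[μ] 0 := by
      rw [h0]
      exact Lp.coeFn_zero _ _ _
    exact h3.symm.trans h4
  have h5 : ∀ w ∈ M, etaF σ M B w ≠ 0 := by
    intro w hw
    unfold etaF
    rw [Finset.sum_eq_single 1]
    · rw [inv_one, mul_one, if_pos hw]
      exact_mod_cast hσ
    · intro b hb hb1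
      rw [if_neg]
      intro hcon
      have : b ∈ M := by
        have h6 := (M.mul_mem_cancel_left hw).1 hcon
        exact inv_mem_iff.1 h6
      exact hb1 (hB b hb this)
    · intro h; exact absurd h1 h
  have h7 : μ (M : Set G) = 0 := by
    refine measure_mono_null (fun w hw => ?_) h2
    exact h5 w hw
  exact (hMo.measure_pos μ ⟨1, one_mem M⟩).ne' h7

/-- right equivariance of `η_B`. -/
theorem etaF_mul_right {H : Subgroup G} (hσm : ∀ g ∈ H, ∀ h ∈ H, σ (g * h) = σ g * σ h)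
    {B : Subgroup G} (hBH : B ≤ H) {Bf : Finset G} (hBf : ∀ g, g ∈ Bf ↔ g ∈ B) {h : G} (hh : h ∈ B)
    (w : G) : etaF σ M Bf (w * h) = σ h * etaF σ M Bf w := by
  classical
  unfold etaF
  rw [Finset.mul_sum]
  refine Finset.sum_bij' (fun b _ => b * h⁻¹) (fun b _ => b * h) ?_ ?_ ?_ ?_ ?_
  · intro b hb
    exact (hBf _).2 (mul_mem ((hBf _).1 hb) (inv_mem hh))
  · intro b hb
    exact (hBf _).2 (mul_mem ((hBf _).1 hb) hh)
  · intro b _; simp
  · intro b _; simp
  · intro b hb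
    have e1 : w * h * b⁻¹ = w * (b * h⁻¹)⁻¹ := by group
    rw [e1]
    have e2 : σ b = σ h * σ (b * h⁻¹) := by
      have h3 := hσm (b * h⁻¹) (hBH (mul_mem ((hBf _).1 hb) (inv_mem hh))) h (hBH hh)
      rw [inv_mul_cancel_right] at h3
      rw [h3, mul_comm]
    by_cases hc : w * (b * h⁻¹)⁻¹ ∈ M
    · rw [if_pos hc, if_pos hc, e2]
      push_cast
      ring
    · rw [if_neg hc, if_neg hc, mul_zero]

variable {L : Subgroup G} (hLo : IsOpen (L : Set G)) (hLc : IsCompact (L : Set G))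

/-- the main vanishing statement. -/
theorem proj_lreg_eta {H : Subgroup G} (hσm : ∀ g ∈ H, ∀ h ∈ H, σ (g * h) = σ g * σ h)
    (hσ2 : ∀ g, σ g * σ g = 1) {K : Set G} {S : Set G}
    (hS : ∀ z ∈ (L : Set G) * K * (M : Set G), ∃ h ∈ S, z * h * z⁻¹ ∈ L ∧ σ h = -1)
    {B : Subgroup G} (hBH : B ≤ H) (hSB : S ⊆ B) {Bf : Finset G} (hBf : ∀ g, g ∈ Bf ↔ g ∈ B)
    {y : G} (hy : y ∈ K) :
    proj μ hLo hLc (lreg μ y (eta μ hMo hMc σ Bf)) = 0 := by
  rw [lreg_eta, proj]
  have hcont : Continuous (etaF σ M Bf ∘ fun x => y⁻¹ * x) :=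
    (etaF_continuous hMo σ Bf).comp (continuous_const_mul y⁻¹)
  have hsupp : HasCompactSupport (etaF σ M Bf ∘ fun x => y⁻¹ * x) :=
    (etaF_compact hMc σ Bf).comp_homeomorph (Homeomorph.mulLeft y⁻¹)
  refine conv_toLp_eq_zero μ _ hLc (fun g hg => ?_) hcont hsupp _ fun z => ?_
  · unfold nind
    rw [Set.indicator_of_notMem hg, mul_zero]
  · by_cases hall : ∀ g ∈ L, etaF σ M Bf (y⁻¹ * (g⁻¹ * z)) = 0
    · rw [← integral_zero G ℂ]
      congr 1
      ext g
      by_cases hg : g ∈ L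
      · simp only [Function.comp_apply]
        rw [hall g hg, mul_zero]
      · unfold nind
        rw [Set.indicator_of_notMem (by simpa using hg), mul_zero, zero_mul]
    · push Not at hall
      obtain ⟨g1, hg1, hne⟩ := hall
      obtain ⟨b0, hb0, hb0'⟩ := etaF_ne_zero σ hne
      have hb0B : b0 ∈ B := (hBf _).1 hb0
      obtain ⟨h, hhS, hhL, hhσ⟩ := hS (z * b0⁻¹) (by
        refine ⟨g1 * y, ⟨g1, hg1, y, hy, rfl⟩, _, hb0', ?_⟩
        simp only
        group)
      have hhB : h ∈ B := hSB hhS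
      set h0 := b0⁻¹ * h * b0 with hh0
      have hh0B : h0 ∈ B := mul_mem (mul_mem (inv_mem hb0B) hhB) hb0B
      have hl0 : z * h0 * z⁻¹ ∈ L := by
        have : z * h0 * z⁻¹ = z * b0⁻¹ * h * (z * b0⁻¹)⁻¹ := by rw [hh0]; group
        rw [this]; exact hhL
      have hσ1 : σ 1 = 1 := by
        have h3 := hσm 1 (one_mem _) 1 (one_mem _)
        rw [mul_one] at h3
        rw [h3, hσ2]
      have hσh0 : σ h0 = -1 := by
        rw [hh0, hσm _ (hBH (mul_mem (inv_mem hb0B) hhB)) _ (hBH hb0B),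
          hσm _ (hBH (inv_mem hb0B)) _ (hBH hhB), hhσ]
        have h4 := hσm b0⁻¹ (hBH (inv_mem hb0B)) b0 (hBH hb0B)
        rw [inv_mul_cancel, hσ1] at h4
        linarith
      have hσh0' : σ h0⁻¹ = -1 := by
        have h4 := hσm h0⁻¹ (hBH (inv_mem hh0B)) h0 (hBH hh0B)
        rw [inv_mul_cancel, hσ1, hσh0] at h4
        linarith
      -- the integral is its own negative
      have key : ∫ g, nind μ L g * (etaF σ M Bf ∘ fun x => y⁻¹ * x) (g⁻¹ * z) ∂μ =
          -∫ g, nind μ L g * (etaF σ M Bf ∘ fun x => y⁻¹ * x) (g⁻¹ * z) ∂μ := by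
        conv_lhs => rw [← integral_mul_left_eq_self _ (z * h0 * z⁻¹)]
        rw [← integral_neg]
        congr 1
        ext g
        have e1 : nind μ L (z * h0 * z⁻¹ * g) = nind μ L g := by
          unfold nind
          congr 1
          by_cases hg : g ∈ (L : Set G)
          · rw [Set.indicator_of_mem hg, Set.indicator_of_mem]
            · rfl
            · exact mul_mem hl0 hg
          · rw [Set.indicator_of_notMem hg, Set.indicator_of_notMem]
            intro hcon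
            exact hg ((L.mul_mem_cancel_left hl0).1 hcon)
        have e2 : y⁻¹ * ((z * h0 * z⁻¹ * g)⁻¹ * z) = y⁻¹ * (g⁻¹ * z) * h0⁻¹ := by group
        simp only [Function.comp_apply]
        rw [e1, e2, etaF_mul_right σ hσm hBH hBf (inv_mem hh0B), hσh0']
        push_cast
        ring
      exact self_eq_neg.1 key

/-- `p_L λ(f) η_B = 0` for `f` supported in a compact set and `B` large. -/
theorem exists_kill {H : Subgroup G} (hσm : ∀ g ∈ H, ∀ h ∈ H, σ (g * h) = σ g * σ h)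
    (hσ2 : ∀ g, σ g * σ g = 1) (hcond : ∀ z : G, ∃ h ∈ H, z * h * z⁻¹ ∈ L ∧ σ h = -1)
    {K : Set G} (hK : IsCompact K) :
    ∃ S : Finset G, (↑S : Set G) ⊆ H ∧ ∀ B : Subgroup G, B ≤ H → (↑S : Set G) ⊆ B →
      ∀ Bf : Finset G, (∀ g, g ∈ Bf ↔ g ∈ B) → ∀ y ∈ K,
      proj μ hLo hLc (lreg μ y (eta μ hMo hMc σ Bf)) = 0 := by
  classical
  have hC : IsCompact ((L : Set G) * K * (M : Set G)) := (hLc.mul hK).mul hMc
  obtain ⟨t, ht⟩ := hC.elim_finite_subcover
    (fun h : {h : G // h ∈ H ∧ σ h = -1} => {z : G | z * h.1 * z⁻¹ ∈ L})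
    (fun h => hLo.preimage (by fun_prop)) (fun z _ => by
      obtain ⟨h, hh, hL, hs⟩ := hcond z
      exact Set.mem_iUnion.2 ⟨⟨h, hh, hs⟩, hL⟩)
  refine ⟨t.image Subtype.val, ?_, ?_⟩
  · intro g hg
    simp only [Finset.coe_image, Set.mem_image, Finset.mem_coe] at hg
    obtain ⟨h, _, rfl⟩ := hg
    exact h.2.1
  · intro B hBH hSB Bf hBf y hy
    refine proj_lreg_eta μ hMo hMc σ hLo hLc hσm hσ2 (K := K) (S := ↑(t.image Subtype.val))
      ?_ hBH hSB hBf hy
    intro z hz
    have := ht hz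
    simp only [Set.mem_iUnion] at this
    obtain ⟨h, hht, hh⟩ := this
    exact ⟨h.1, by simpa using ⟨h.2, hht⟩, hh, h.2.2⟩

include hMo hMc hLo hLc in
/-- the non-simplicity criterion. -/
theorem not_simple {H : Subgroup G} (hσm : ∀ g ∈ H, ∀ h ∈ H, σ (g * h) = σ g * σ h)
    (hσ2 : ∀ g, σ g * σ g = 1) (hcond : ∀ z : G, ∃ h ∈ H, z * h * z⁻¹ ∈ L ∧ σ h = -1)
    (hlf : ∀ S : Finset G, (↑S : Set G) ⊆ H → ∃ B : Subgroup G, B ≤ H ∧ (↑S : Set G) ⊆ B ∧
      (B : Set G).Finite)
    (hHM : ∀ g ∈ H, g ∈ M → g = 1) : ¬ IsSimpleAlg (reducedL μ) := by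
  classical
  intro hsimple
  -- the ideal
  let good : (Lp ℂ 2 μ →L[ℂ] Lp ℂ 2 μ) → Prop := fun a =>
    ∀ b ∈ reducedL μ, ∀ ε : ℝ, 0 < ε → ∃ S : Finset G, (↑S : Set G) ⊆ H ∧
      ∀ B : Subgroup G, B ≤ H → (↑S : Set G) ⊆ B → ∀ Bf : Finset G, (∀ g, g ∈ Bf ↔ g ∈ B) →
      ‖a (b (eta μ hMo hMc σ Bf))‖ ≤ ε * ‖eta μ hMo hMc σ Bf‖
  let J : Set (Lp ℂ 2 μ →L[ℂ] Lp ℂ 2 μ) := {a | a ∈ reducedL μ ∧ good a}
  have hJ : IsClosedIdeal (reducedL μ) J := by
    refine ⟨fun a ha => ha.1, ?_, ?_, ?_, ?_, ?_, ?_⟩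
    · -- closed
      rw [← isSeqClosed_iff_isClosed]
      intro u a hu hua
      refine ⟨isClosed_closure.isSeqClosed (fun n => (hu n).1) hua, ?_⟩
      intro b hb ε hε
      have hε' : 0 < ε / (2 * (‖b‖ + 1)) := by positivity
      obtain ⟨n, hn⟩ := ((Metric.tendsto_nhds.1 hua) _ hε').exists
      obtain ⟨S, hSH, hS⟩ := (hu n).2 b hb (ε / 2) (by positivity)
      refine ⟨S, hSH, fun B hBH hSB Bf hBf => ?_⟩
      have h1 := hS B hBH hSB Bf hBf
      set η := eta μ hMo hMc σ Bf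
      have h2 : a (b η) = u n (b η) - (u n - a) (b η) := by
        rw [sub_apply]; abel
      have h3 : ‖(u n - a) (b η)‖ ≤ ε / (2 * (‖b‖ + 1)) * (‖b‖ * ‖η‖) := by
        refine ((u n - a).le_opNorm _).trans ?_
        rw [dist_eq_norm] at hn
        gcongr
        exact b.le_opNorm η
      have h4 : ε / (2 * (‖b‖ + 1)) * (‖b‖ * ‖η‖) ≤ ε / 2 * ‖η‖ := by
        have h5 : ε / (2 * (‖b‖ + 1)) * (‖b‖ * ‖η‖) = ε / 2 * (‖b‖ / (‖b‖ + 1)) * ‖η‖ := by
          field_simp
        rw [h5]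
        have h6 : ‖b‖ / (‖b‖ + 1) ≤ 1 := by
          rw [div_le_one (by positivity)]; linarith
        have h7 : 0 ≤ ε / 2 := by positivity
        gcongr
        nlinarith
      calc ‖a (b η)‖ = ‖u n (b η) - (u n - a) (b η)‖ := by rw [h2]
        _ ≤ ‖u n (b η)‖ + ‖(u n - a) (b η)‖ := norm_sub_le _ _
        _ ≤ ε / 2 * ‖η‖ + ε / 2 * ‖η‖ := add_le_add h1 (h3.trans h4)
        _ = ε * ‖η‖ := by ring
    · refine ⟨zero_mem_reduced μ, fun b hb ε hε => ⟨∅, by simp, fun B _ _ Bf _ => ?_⟩⟩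
      simp only [_root_.zero_apply, norm_zero]
      positivity
    · rintro a ⟨ha, ha'⟩ a' ⟨hb, hb'⟩
      refine ⟨add_mem_reduced μ ha hb, fun b hbm ε hε => ?_⟩
      obtain ⟨S, hSH, hS⟩ := ha' b hbm (ε / 2) (by positivity)
      obtain ⟨S', hSH', hS'⟩ := hb' b hbm (ε / 2) (by positivity)
      refine ⟨S ∪ S', by rw [Finset.coe_union]; exact Set.union_subset hSH hSH',
        fun B hBH hSB Bf hBf => ?_⟩
      rw [Finset.coe_union] at hSB
      have h1 := hS B hBH (Set.subset_union_left.trans hSB) Bf hBf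
      have h2 := hS' B hBH (Set.subset_union_right.trans hSB) Bf hBf
      rw [add_apply]
      refine (norm_add_le _ _).trans ?_
      linarith
    · rintro c a ⟨ha, ha'⟩
      refine ⟨smul_mem_reduced μ c ha, fun b hbm ε hε => ?_⟩
      obtain ⟨S, hSH, hS⟩ := ha' b hbm (ε / (‖c‖ + 1)) (by positivity)
      refine ⟨S, hSH, fun B hBH hSB Bf hBf => ?_⟩
      have h1 := hS B hBH hSB Bf hBf
      rw [smul_apply, norm_smul]
      calc ‖c‖ * ‖a (b (eta μ hMo hMc σ Bf))‖
          ≤ (‖c‖ + 1) * (ε / (‖c‖ + 1) * ‖eta μ hMo hMc σ Bf‖) := by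
            gcongr
            linarith
        _ = ε * ‖eta μ hMo hMc σ Bf‖ := by field_simp
    · rintro a ha x ⟨hx, hx'⟩
      refine ⟨mul_mem_reduced μ ha hx, fun b hbm ε hε => ?_⟩
      obtain ⟨S, hSH, hS⟩ := hx' b hbm (ε / (‖a‖ + 1)) (by positivity)
      refine ⟨S, hSH, fun B hBH hSB Bf hBf => ?_⟩
      have h1 := hS B hBH hSB Bf hBf
      have h2 : (a * x) (b (eta μ hMo hMc σ Bf)) = a (x (b (eta μ hMo hMc σ Bf))) := rfl
      rw [h2]
      calc ‖a (x (b (eta μ hMo hMc σ Bf)))‖ ≤ ‖a‖ * ‖x (b (eta μ hMo hMc σ Bf))‖ :=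
            a.le_opNorm _
        _ ≤ (‖a‖ + 1) * (ε / (‖a‖ + 1) * ‖eta μ hMo hMc σ Bf‖) := by
            gcongr
            linarith
        _ = ε * ‖eta μ hMo hMc σ Bf‖ := by field_simp
    · rintro a ha x ⟨hx, hx'⟩
      refine ⟨mul_mem_reduced μ hx ha, fun b hbm ε hε => ?_⟩
      exact hx' (a * b) (mul_mem_reduced μ ha hbm) ε hε
  -- `p_L ∈ J`
  have hpL : proj μ hLo hLc ∈ J := by
    refine ⟨proj_mem μ hLo hLc, fun b hb ε hε => ?_⟩
    -- approximate `b`
    obtain ⟨b', hb', hbb'⟩ := Metric.mem_closure_iff.1 hb (ε / 2) (by positivity)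
    obtain ⟨f, hf, rfl⟩ := mem_convOps μ hb'
    obtain ⟨k, hks, hkε, hkc, hki⟩ := hf.exists_hasCompactSupport_integral_sub_le
      (ε := ε / 2) (by positivity)
    obtain ⟨S, hSH, hS⟩ := exists_kill μ hMo hMc σ hLo hLc hσm hσ2 hcond hks.isCompact
    refine ⟨S, hSH, fun B hBH hSB Bf hBf => ?_⟩
    have h1 := hS B hBH hSB Bf hBf
    set η := eta μ hMo hMc σ Bf with hη
    have hk0 : proj μ hLo hLc (conv μ k hki η) = 0 := by
      rw [conv_apply, ← ContinuousLinearMap.integral_comp_comm _ (integrable_smul_lreg μ hki η)]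
      rw [← integral_zero G (Lp ℂ 2 μ)]
      congr 1
      ext1 y
      rw [map_smul]
      by_cases hy : y ∈ tsupport k
      · rw [h1 y hy, smul_zero]
      · rw [image_eq_zero_of_notMem_tsupport hy, zero_smul]
    have hsub : conv μ f hf η - conv μ k hki η = conv μ (fun g => f g - k g) (hf.sub hki) η := by
      rw [conv_apply, conv_apply, conv_apply, ← integral_sub (integrable_smul_lreg μ hf η)
        (integrable_smul_lreg μ hki η)]
      congr 1
      ext1 g
      rw [sub_smul]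
    have h2 : proj μ hLo hLc (b η) = proj μ hLo hLc ((b - conv μ f hf) η) +
        proj μ hLo hLc (conv μ (fun g => f g - k g) (hf.sub hki) η) := by
      rw [← hsub, map_sub, hk0, sub_zero, ← map_add, sub_apply, sub_add_cancel]
    rw [h2]
    have hp : ∀ v, ‖proj μ hLo hLc v‖ ≤ ‖v‖ := fun v => by
      refine ((proj μ hLo hLc).le_opNorm v).trans ?_
      have := norm_proj_le μ hLo hLc
      nlinarith [norm_nonneg v]
    have h3 : ‖(b - conv μ f hf) η‖ ≤ ε / 2 * ‖η‖ := by
      refine ((b - conv μ f hf).le_opNorm η).trans ?_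
      rw [dist_eq_norm] at hbb'
      gcongr
    have h4 : ‖conv μ (fun g => f g - k g) (hf.sub hki) η‖ ≤ ε / 2 * ‖η‖ := by
      refine ((conv μ (fun g => f g - k g) (hf.sub hki)).le_opNorm η).trans ?_
      gcongr
      exact (norm_conv_le μ _).trans hkε
    calc ‖proj μ hLo hLc ((b - conv μ f hf) η) +
          proj μ hLo hLc (conv μ (fun g => f g - k g) (hf.sub hki) η)‖
        ≤ ‖(b - conv μ f hf) η‖ + ‖conv μ (fun g => f g - k g) (hf.sub hki) η‖ :=
          (norm_add_le _ _).trans (add_le_add (hp _) (hp _))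
      _ ≤ ε * ‖η‖ := by linarith
  have hσ1 : σ 1 = 1 := by
    have h3 := hσm 1 (one_mem _) 1 (one_mem _)
    rw [mul_one] at h3
    rw [h3, hσ2]
  rcases hsimple J hJ with h | h
  · -- `p_L ≠ 0`
    rw [h] at hpL
    have h1 : proj μ hLo hLc (eta μ hLo hLc σ {1}) = eta μ hLo hLc σ {1} :=
      proj_eq_self μ hLo hLc fun g hg => lreg_eta_self μ hLo hLc σ hg _
    have h2 : eta μ hLo hLc σ {1} ≠ 0 := by
      refine eta_ne_zero μ hLo hLc σ (by simp) (by simp) ?_
      rw [hσ1]; norm_num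
    rw [hpL] at h1
    exact h2 (by rw [← h1]; rfl)
  · -- `p_M ∉ J`
    have hpM : proj μ hMo hMc ∈ J := by
      rw [h]; exact proj_mem μ hMo hMc
    obtain ⟨S, hSH, hS⟩ := hpM.2 _ (proj_mem μ hMo hMc) (1 / 2) (by norm_num)
    obtain ⟨B, hBH, hSB, hBf⟩ := hlf S hSH
    have h1 := hS B hBH hSB hBf.toFinset (by simp)
    have h2 : proj μ hMo hMc (eta μ hMo hMc σ hBf.toFinset) = eta μ hMo hMc σ hBf.toFinset :=
      proj_eq_self μ hMo hMc fun g hg => lreg_eta_self μ hMo hMc σ hg _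
    rw [h2, h2] at h1
    have h3 : eta μ hMo hMc σ hBf.toFinset ≠ 0 := by
      refine eta_ne_zero μ hMo hMc σ ?_ ?_ (by rw [hσ1]; norm_num)
      · simp
      · intro b hb hbM
        exact hHM b (hBH (by simpa using hb)) hbM
    have h4 : 0 < ‖eta μ hMo hMc σ hBf.toFinset‖ := norm_pos_iff.2 h3
    linarith

end Pool.Agent.MP977
end

section

/-!
# MP_977f72_an : the concrete tower
-/

set_option autoImplicit false

namespace Pool.Agent.MP977

open Monoid

/-- the tower data of the construction. -/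
noncomputable def theTower : TowerData where
  Q n := (Stage.tower n).Q
  grp n := (Stage.tower n).grp
  cnt n := (Stage.tower n).cnt
  fin0 := inferInstanceAs (Finite (Multiplicative (ZMod 2)))
  ι n q c := (emb q c : Ext (Stage.tower n).Q)
  ι_mul n q q' c c' := emb_mul q q' c c'
  ι_inj n q q' c c' h := emb_inj h
  δ n x := dirE (Q := (Stage.tower n).Q) x
  δ_ι n q c x := dirE_emb_mul q c x
  δ_one n := dirE_one
  P2 n := ⟨fun i => genE (Q := (Stage.tower n).Q) i, fun x i j hi hj => dirE_gen_mul hi hj⟩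
  H n := (Stage.tower n).H
  H_ι n q c := by
    change (emb q c : Ext (Stage.tower n).Q) ∈ (Stage.tower n).nextH ↔ _
    rw [Stage.mem_nextH]
    constructor
    · rintro ⟨h1, h, hh, h2⟩
      refine ⟨by simpa [emb] using h1, ?_⟩
      have := Coprod.inl_injective h2
      rwa [this]
    · rintro ⟨rfl, h⟩
      exact ⟨by simp [emb], q, h, rfl⟩
  lf n := (Stage.tower n).lf
  sgn n := (Stage.tower n).sgn
  sgn_mul n := (Stage.tower n).sgn_mul
  sgn_ι n h _ := by
    change (Stage.tower n).nextSgn (emb h 0) = _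
    simp [Stage.nextSgn, emb, par_zero]
  F n := (Stage.tower n).F
  F_succ n f hf := hf
  cond n := (Stage.tower n).cond

end Pool.Agent.MP977
end

section

/-!
# MP_977f72_an : the main theorem
-/

set_option autoImplicit false

open MeasureTheory

namespace Pool.Agent.MP977

open Classical in
/-- the boundary data of the limit group. -/
noncomputable def bdData (T : TowerData) : BdData T.Lim where
  Gs := T.Gs
  exh g := by
    obtain ⟨m, hm⟩ := T.exists_mem_Gs g
    exact ⟨m, fun k hk => T.Gs_mono hk hm⟩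
  Ls := T.Ls
  Lo := T.Ls_open
  a n g := decide (T.del g n = 1)
  a_L n l hl g := by rw [TowerData.del_Ls hl]
  a_one n := by simp [TowerData.del_one]
  P1 m h hh n hn g hg := by
    rw [TowerData.del_eq_of_dir hg (by simpa using hh) n hn]
  P2 m := by
    obtain ⟨s, hs⟩ := T.exists_push m
    exact ⟨s, fun h i j hi hj => hs h i j (by simpa using hi) (by simpa using hj)⟩
  P3 h hh := TowerData.eq_one_of_del fun n => by simpa using hh n

/-- the limit group is a counterexample. -/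
theorem lim_not_simple (T : TowerData) [MeasurableSpace T.Lim] [BorelSpace T.Lim]
    (μ : Measure T.Lim) [μ.IsHaarMeasure] : ¬ IsSimpleAlg (reducedCStar μ) := by
  have hL0 : IsCompact (T.Ls 0 : Set T.Lim) :=
    T.Gs_zero_compact.of_isClosed_subset ((T.Ls 0).isClosed_of_isOpen (T.Ls_open 0))
      (T.Ls_le_Gs 0)
  have key : ¬ IsSimpleAlg (reducedL μ) := not_simple μ (M := T.Ls 0) (T.Ls_open 0) hL0 T.sg (L := T.Gs 0) (T.Gs_open 0)
    T.Gs_zero_compact (H := T.HG) (fun g hg h hh => TowerData.sg_mul hg hh) TowerData.sg_sq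
    TowerData.cond_G TowerData.HG_lf (fun g hg hl => TowerData.HG_inf_Ls hg hl)
  rw [reducedCStar_eq]
  exact key

/-- a universal boundary has a free point. -/
theorem free_of_furstenberg {G : Type} [Group G] [TopologicalSpace G] [IsTopologicalGroup G]
    (D : BdData G) (B : Type) [TopologicalSpace B] [MulAction G B]
    (hB : IsFurstenbergBoundary G B) : ∃ z : B, MulAction.stabilizer G z = ⊥ := by
  obtain ⟨φ, _, hφs, hφ⟩ := hB.2 D.X D.isGBoundary
  obtain ⟨z, hz⟩ := hφs D.pt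
  refine ⟨z, ?_⟩
  rw [eq_bot_iff]
  intro g hg
  rw [MulAction.mem_stabilizer_iff] at hg
  have h1 : g ∈ MulAction.stabilizer G D.pt := by
    rw [MulAction.mem_stabilizer_iff, ← hz, ← hφ, hg]
  rwa [D.stabilizer_pt] at h1

end Pool.Agent.MP977
end
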